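import Pool.Agent.Lib.MP_f2256b_ntT14.Dense

/-! # Leaf: approximation of the indicator function by Cauchy kernels -/

set_option autoImplicit false

open Filter Topology Finset

namespace CharCLT

private noncomputable def aprB (u ε t : ℝ) : ℝ := max 0 (min 1 ((u + ε - t) / ε))

private theorem aprB_cont (u ε : ℝ) : Continuous (aprB u ε) := by
  unfold aprB
  fun_prop

private theorem aprB_near {u ε : ℝ} (hε : 0 < ε) (t : ℝ) :
    |(if t ≤ u then (1 : ℝ) else 0) - aprB u ε t| ≤ (if u < t ∧ t ≤ u + ε then 1 else 0) := by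
  unfold aprB
  by_cases h1 : t ≤ u
  · have h2 : 1 ≤ (u + ε - t) / ε := by
      rw [le_div_iff₀ hε]
      linarith
    rw [if_pos h1, min_eq_left h2, max_eq_right zero_le_one, sub_self, abs_zero]
    split_ifs
    · exact zero_le_one
    · exact le_refl 0
  · rw [if_neg h1, zero_sub, abs_neg]
    by_cases h2 : t ≤ u + ε
    · rw [if_pos ⟨not_le.mp h1, h2⟩, abs_of_nonneg (le_max_left _ _)]
      exact max_le zero_le_one (min_le_left _ _)
    · have h3 : (u + ε - t) / ε ≤ 0 := div_nonpos_of_nonpos_of_nonneg (by linarith) hε.le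
      rw [max_eq_left ((min_le_right _ _).trans h3), abs_zero]
      split_ifs
      · exact zero_le_one
      · exact le_refl 0

private theorem aprB_zero {u ε t : ℝ} (hε : 0 < ε) (h : u + ε ≤ t) : aprB u ε t = 0 := by
  unfold aprB
  have h3 : (u + ε - t) / ε ≤ 0 := div_nonpos_of_nonpos_of_nonneg (by linarith) hε.le
  exact max_eq_left ((min_le_right _ _).trans h3)

/-- `b(t) = 1` for `t ≤ u`, `0` for `t ≥ u + ε`, linear between. With `y = 1 / (1 + t^2)` apply `dense` to
`g(y) = b(t) / y` (`g = 0` near `y = 0`), multiply by `y`: `y / (1 + μ y) = 1 / (1 + μ + t^2)`, which is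
`(2 s / (s^2 + (2 π t)^2)) * (2 π^2 / s)` for `s = 2 π √(1 + μ)`. -/
theorem approx {u ε : ℝ} (hu : 0 < u) (hε : 0 < ε) :
    ∃ (n : ℕ) (c s : Fin n → ℝ), (∀ i, 0 < s i) ∧ ∀ t : ℝ, 0 < t →
      |(if t ≤ u then (1 : ℝ) else 0) - ∑ i, c i * (2 * s i / (s i ^ 2 + (2 * Real.pi * t) ^ 2))| ≤
        ε / (1 + t ^ 2) + (if u < t ∧ t ≤ u + ε then 1 else 0) := by
  obtain ⟨y0, hy0⟩ : ∃ y0 : ℝ, y0 = 1 / (1 + (u + ε) ^ 2) := ⟨_, rfl⟩
  have hy0p : 0 < y0 := by
    rw [hy0]
    positivity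
  have hmax : ∀ y : ℝ, 0 < max y y0 := fun y => lt_of_lt_of_le hy0p (le_max_right _ _)
  let g : ℝ → ℝ := fun y => aprB u ε (Real.sqrt (1 / (max y y0) - 1)) / max y y0
  have hm : Continuous fun y : ℝ => max y y0 := continuous_id.max continuous_const
  have hgc : Continuous g := by
    refine Continuous.div ((aprB_cont u ε).comp (Real.continuous_sqrt.comp
      ((Continuous.div continuous_const hm fun y => (hmax y).ne').sub continuous_const))) hm
      fun y => (hmax y).ne'
  obtain ⟨n, c, μ, hμ, hd⟩ := dense g hgc.continuousOn hε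
  have hπ := Real.pi_pos
  have hs : ∀ i, 0 < 2 * Real.pi * Real.sqrt (1 + μ i) := fun i => by
    have : 0 < Real.sqrt (1 + μ i) := Real.sqrt_pos.mpr (by linarith [hμ i])
    positivity
  refine ⟨n, fun i => c i * (2 * Real.pi ^ 2 / (2 * Real.pi * Real.sqrt (1 + μ i))),
    fun i => 2 * Real.pi * Real.sqrt (1 + μ i), hs, ?_⟩
  intro t ht
  obtain ⟨y, hy⟩ : ∃ y : ℝ, y = 1 / (1 + t ^ 2) := ⟨_, rfl⟩
  have ht2 : 0 < 1 + t ^ 2 := by positivity
  have hyp : 0 < y := by
    rw [hy]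
    positivity
  have hy1 : y ≤ 1 := by
    rw [hy, div_le_one ht2]
    nlinarith [sq_nonneg t]
  have hyg : y * g y = aprB u ε t := by
    change y * (aprB u ε (Real.sqrt (1 / (max y y0) - 1)) / max y y0) = aprB u ε t
    by_cases hc : y0 ≤ y
    · rw [max_eq_left hc]
      have e : 1 / y - 1 = t ^ 2 := by
        rw [hy, one_div_one_div]
        ring
      rw [e, Real.sqrt_sq ht.le, mul_div_cancel₀ _ hyp.ne']
    · have hc' := (not_le.mp hc).le
      rw [max_eq_right hc']
      have e : 1 / y0 - 1 = (u + ε) ^ 2 := by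
        rw [hy0, one_div_one_div]
        ring
      rw [e, Real.sqrt_sq (by linarith), aprB_zero hε le_rfl, zero_div, mul_zero]
      have h5 : u + ε ≤ t := by
        by_contra h6
        push Not at h6
        have h7 : t ^ 2 ≤ (u + ε) ^ 2 := pow_le_pow_left₀ ht.le h6.le 2
        apply hc
        rw [hy, hy0]
        exact one_div_le_one_div_of_le ht2 (by linarith)
      exact (aprB_zero hε h5).symm
  have hterm : ∀ i, c i * (2 * Real.pi ^ 2 / (2 * Real.pi * Real.sqrt (1 + μ i))) *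
      (2 * (2 * Real.pi * Real.sqrt (1 + μ i)) /
        ((2 * Real.pi * Real.sqrt (1 + μ i)) ^ 2 + (2 * Real.pi * t) ^ 2)) =
      y * (c i / (1 + μ i * y)) := by
    intro i
    obtain ⟨r, hr⟩ : ∃ r : ℝ, r = Real.sqrt (1 + μ i) := ⟨_, rfl⟩
    have hr0 : 0 < r := by
      rw [hr]
      exact Real.sqrt_pos.mpr (by linarith [hμ i])
    have hr2 : r ^ 2 = 1 + μ i := by
      rw [hr]
      exact Real.sq_sqrt (by linarith [hμ i])
    rw [← hr]
    have hA : 0 < 1 + μ i + t ^ 2 := by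
      have := hμ i
      positivity
    have e1 : (2 * Real.pi * r) ^ 2 + (2 * Real.pi * t) ^ 2 =
        4 * Real.pi ^ 2 * (1 + μ i + t ^ 2) := by
      rw [mul_pow (2 * Real.pi) r, hr2]
      ring
    have e2 : y * (c i / (1 + μ i * y)) = c i / (1 + μ i + t ^ 2) := by
      have h8 : 1 + μ i * y = (1 + μ i + t ^ 2) / (1 + t ^ 2) := by
        rw [hy, eq_div_iff ht2.ne']
        field_simp
        ring
      rw [h8, hy]
      field_simp
    rw [e1, e2]
    field_simp
    ring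
  have h9 := hd y ⟨hyp.le, hy1⟩
  have h10 : |aprB u ε t - ∑ i, c i * (2 * Real.pi ^ 2 / (2 * Real.pi * Real.sqrt (1 + μ i))) *
      (2 * (2 * Real.pi * Real.sqrt (1 + μ i)) /
        ((2 * Real.pi * Real.sqrt (1 + μ i)) ^ 2 + (2 * Real.pi * t) ^ 2))| ≤ ε / (1 + t ^ 2) := by
    rw [Finset.sum_congr rfl fun i _ => hterm i, ← Finset.mul_sum, ← hyg, ← mul_sub, abs_mul,
      abs_of_pos hyp]
    calc y * |g y - ∑ i, c i / (1 + μ i * y)| ≤ y * ε := mul_le_mul_of_nonneg_left h9 hyp.le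
      _ = ε / (1 + t ^ 2) := by
        rw [hy]
        ring
  have h11 := aprB_near (u := u) hε t
  have h12 := abs_add_le ((if t ≤ u then (1 : ℝ) else 0) - aprB u ε t)
    (aprB u ε t - ∑ i, c i * (2 * Real.pi ^ 2 / (2 * Real.pi * Real.sqrt (1 + μ i))) *
      (2 * (2 * Real.pi * Real.sqrt (1 + μ i)) /
        ((2 * Real.pi * Real.sqrt (1 + μ i)) ^ 2 + (2 * Real.pi * t) ^ 2)))
  rw [sub_add_sub_cancel] at h12
  linarith

end CharCLT
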