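import Pool.Agent.Lib.MP_f2256b_nt.Main

/-! # MP_f2256b_nt, character sums: definitions (helper14) -/

set_option autoImplicit false

open ProbabilityTheory MeasureTheory Filter Topology Finset

namespace CharCLT

/-- The central limit theorem holds for all lengths `h k` comparable to `H k`. -/
def AllCLT (q : ℕ → ℕ) (χ : (k : ℕ) → DirichletCharacter ℂ (q k)) (H : ℕ → ℕ) : Prop :=
  ∀ h : ℕ → ℕ, (∀ k, 1 ≤ h k ∧ h k ≤ q k) →
    (∃ δ : ℝ, 0 < δ ∧ ∀ k, δ * H k ≤ h k ∧ δ * h k ≤ H k) → CLT q χ h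

/-- The mean of `χ ^ 2` over the Fejer weights. -/
noncomputable def M {q : ℕ} (χ : DirichletCharacter ℂ q) (h : ℕ) : ℂ :=
  ∑ a ∈ range q, χ (a : ZMod q) ^ 2 * (w q h a : ℂ)

/-- The Poisson kernel at `2 π a / q`. -/
noncomputable def P (r : ℝ) (q a : ℕ) : ℝ :=
  (1 - r ^ 2) / (1 - 2 * r * Real.cos (2 * Real.pi * a / q) + r ^ 2)

/-- `1 ≤ a < q / 2`. -/
def half (q : ℕ) : Finset ℕ := (range q).filter fun a => 1 ≤ a ∧ 2 * a < q

end CharCLT
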