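import Pool.Agent.Lib.MP_f2256b_ntT14.Base

/-! # Leaf: from sequences to a uniform bound -/

set_option autoImplicit false

open ProbabilityTheory MeasureTheory Filter Topology Finset

namespace CharCLT

private theorem exists_ne2 (q : ℕ) (hq : q.Prime) (χ : DirichletCharacter ℂ q) (hχ : χ ^ 2 ≠ 1) :
    ∃ n : ℕ, 1 ≤ n ∧ n < q ∧ χ (n : ZMod q) ^ 2 ≠ 1 := by
  by_contra hcon
  push Not at hcon
  haveI : Fact q.Prime := ⟨hq⟩
  apply hχ
  apply MulChar.ext
  intro u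
  rw [MulChar.pow_apply_coe, MulChar.one_apply_coe]
  have h1 : ((((u : ZMod q).val : ℕ)) : ZMod q) = (u : ZMod q) := ZMod.natCast_zmod_val _
  have h2 : (u : ZMod q).val ≠ 0 := by
    intro h0
    have : (u : ZMod q) = 0 := (ZMod.val_eq_zero _).1 h0
    exact u.ne_zero this
  have h3 := hcon (u : ZMod q).val (Nat.one_le_iff_ne_zero.2 h2) (ZMod.val_lt _)
  rw [h1] at h3
  exact h3

private theorem five_le2 (q : ℕ) (hq : q.Prime) (χ : DirichletCharacter ℂ q) (hχ : χ ^ 2 ≠ 1) :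
    5 ≤ q := by
  obtain ⟨n, h1, h2, h3⟩ := exists_ne2 q hq χ hχ
  by_contra hlt
  push Not at hlt
  have h5 : n = 1 ∨ n ≠ 1 := eq_or_ne n 1
  rcases h5 with h5 | h5
  · apply h3
    rw [h5]
    simp
  · have h6 : q ≠ 4 := by
      intro h; rw [h] at hq; exact absurd hq (by norm_num)
    have h7 : q = 3 := by omega
    have h8 : n = 2 := by omega
    subst h7
    subst h8
    apply h3
    rw [← map_pow]
    have : (((2 : ℕ) : ZMod 3)) ^ 2 = 1 := by decide
    rw [this, map_one]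

private theorem log_ge2 (q : ℕ) (h : 5 ≤ q) : (1.3 : ℝ) ≤ Real.log q := by
  have h1 : Real.log 4 ≤ Real.log q := by
    apply Real.log_le_log (by norm_num)
    have : (5 : ℝ) ≤ q := by exact_mod_cast h
    linarith
  have h2 : Real.log 4 = 2 * Real.log 2 := by
    rw [show (4 : ℝ) = 2 ^ 2 by norm_num, Real.log_pow]; norm_num
  have h3 := Real.log_two_gt_d9
  linarith

/-- Suppose `ε` has no `C`: for every `m` a prime `q_m`, `χ_m`, `x_m` with `log(q_m)^m ≤ x_m`, `x_m^2 ≤ q_m`, sum `> ε x_m`.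
Then `q_m → ∞`, `x_m → ∞` (`log q > 1.09`, as `log(q)^m ≤ √q`; `q ≥ 5` since `χ^2 ≠ 1`). `H_m = ⌊q_m / x_m⌋`:
`x ≤ q / H ≤ x + 2`, so the sums up to `x` and `⌊q / H⌋` differ by at most `2`. (As in Lib/MP_f2256b_nt/Bound.lean.) -/
theorem bound2 (hyp : ∀ (q : ℕ → ℕ) (χ : (k : ℕ) → DirichletCharacter ℂ (q k)) (H : ℕ → ℕ),
    (∀ k, (q k).Prime) → (∀ k, χ k ^ 2 ≠ 1) → (∀ k, 1 ≤ H k ∧ H k ≤ q k) →
    Tendsto (fun k => (H k : ℝ)) atTop atTop → Tendsto (fun k => (q k : ℝ)) atTop atTop →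
    Tendsto (fun k => Real.log ((q k : ℝ) / (H k : ℝ)) / Real.log (Real.log (q k : ℝ)))
      atTop atTop →
    Tendsto (fun k => (H k : ℝ) / q k *
      ‖∑ n ∈ Icc 1 ⌊(q k : ℝ) / H k⌋₊, χ k (n : ZMod (q k)) ^ 2‖) atTop (𝓝 0)) :
    ∀ ε : ℝ, 0 < ε → ∃ C : ℕ, ∀ q : ℕ, q.Prime → ∀ χ : DirichletCharacter ℂ q, χ ^ 2 ≠ 1 →
      ∀ x : ℕ, Real.log q ^ C ≤ x → x ^ 2 ≤ q →
        ‖∑ n ∈ Icc 1 x, χ (n : ZMod q) ^ 2‖ ≤ ε * x := by
  intro ε hε
  by_contra hcon
  push Not at hcon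
  choose q hq χ hχ x hlx hx2 hbig using hcon
  have h5 : ∀ m, 5 ≤ q m := fun m => five_le2 (q m) (hq m) (χ m) (hχ m)
  have hlog : ∀ m, (1.3 : ℝ) ≤ Real.log (q m) := fun m => log_ge2 _ (h5 m)
  have hLpos : ∀ m, 0 < Real.log (q m) := fun m => by have := hlog m; linarith
  have hx0 : ∀ m, 0 < x m := by
    intro m
    have h1 : (0 : ℝ) < x m := lt_of_lt_of_le (pow_pos (hLpos m) m) (hlx m)
    exact_mod_cast h1
  have hxt : Tendsto (fun m => (x m : ℝ)) atTop atTop :=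
    tendsto_atTop_mono
      (fun m => (pow_le_pow_left₀ (by norm_num) (hlog m) m).trans (hlx m))
      (tendsto_pow_atTop_atTop_of_one_lt (r := (1.3 : ℝ)) (by norm_num))
  obtain ⟨H, hH⟩ : ∃ H : ℕ → ℕ, ∀ m, H m = q m / x m := ⟨fun m => q m / x m, fun _ => rfl⟩
  have hHx : ∀ m, x m ≤ H m := by
    intro m
    rw [hH, Nat.le_div_iff_mul_le (hx0 m), ← pow_two]
    exact hx2 m
  have hHq : ∀ m, H m ≤ q m := fun m => by rw [hH]; exact Nat.div_le_self _ _
  have hH0 : ∀ m, 1 ≤ H m := fun m => le_trans (hx0 m) (hHx m)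
  have hmul : ∀ m, H m * x m ≤ q m := fun m => by rw [hH]; exact Nat.div_mul_le_self _ _
  have hlt : ∀ m, q m < x m * (H m + 1) := fun m => by
    rw [hH]; exact Nat.lt_mul_div_succ _ (hx0 m)
  have hHp : ∀ m, (0 : ℝ) < H m := fun m => by exact_mod_cast hH0 m
  have hqp : ∀ m, (0 : ℝ) < q m := fun m => by
    have := h5 m
    have h0 : 0 < q m := by omega
    exact_mod_cast h0
  have hfl : ∀ m, ⌊(q m : ℝ) / H m⌋₊ = x m := by
    intro m
    rw [Nat.floor_eq_iff (div_nonneg (hqp m).le (hHp m).le)]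
    constructor
    · rw [le_div_iff₀ (hHp m)]
      have h1 : x m * H m ≤ q m := by rw [mul_comm]; exact hmul m
      exact_mod_cast h1
    · rw [div_lt_iff₀ (hHp m)]
      have h1 : q m < (x m + 1) * H m := by
        have := hlt m
        have := hHx m
        nlinarith
      exact_mod_cast h1
  have hHt : Tendsto (fun m => (H m : ℝ)) atTop atTop :=
    tendsto_atTop_mono (fun m => by exact_mod_cast hHx m) hxt
  have hqt : Tendsto (fun m => (q m : ℝ)) atTop atTop :=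
    tendsto_atTop_mono (fun m => by exact_mod_cast hHq m) hHt
  have hll : ∀ m, 0 < Real.log (Real.log (q m)) := by
    intro m
    apply Real.log_pos
    have := hlog m; linarith
  have hrat : Tendsto (fun m => Real.log ((q m : ℝ) / (H m : ℝ)) / Real.log (Real.log (q m : ℝ)))
      atTop atTop := by
    apply tendsto_atTop_mono _ (tendsto_natCast_atTop_atTop (R := ℝ))
    intro m
    rw [le_div_iff₀ (hll m), ← Real.log_pow]
    apply Real.log_le_log (pow_pos (hLpos m) m)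
    refine (hlx m).trans ?_
    rw [le_div_iff₀ (hHp m)]
    have h1 : x m * H m ≤ q m := by rw [mul_comm]; exact hmul m
    exact_mod_cast h1
  have key := hyp q χ H hq hχ (fun k => ⟨hH0 k, hHq k⟩) hHt hqt hrat
  have h6 := key.eventually (gt_mem_nhds (show (0 : ℝ) < ε / 2 by positivity))
  obtain ⟨k, hk⟩ := h6.exists
  rw [hfl] at hk
  have h8 : (q k : ℝ) ≤ 2 * (H k * x k) := by
    have h1 : q k ≤ 2 * (H k * x k) := by
      have h2 := hlt k
      have h3 := hH0 k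
      nlinarith
    exact_mod_cast h1
  have h9 : ε / 2 ≤ (H k : ℝ) / q k * (ε * x k) := by
    rw [div_mul_eq_mul_div, le_div_iff₀ (hqp k)]
    nlinarith
  have h10 : (H k : ℝ) / q k * (ε * x k) <
      (H k : ℝ) / q k * ‖∑ n ∈ Icc 1 (x k), χ k (n : ZMod (q k)) ^ 2‖ :=
    mul_lt_mul_of_pos_left (hbig k) (div_pos (hHp k) (hqp k))
  linarith

end CharCLT
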