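import Pool.Agent.Lib.MP_f2256b_ntT14.Base

/-! # Leaf: the Poisson kernel and the Cauchy kernel -/

set_option autoImplicit false

open Filter Topology Finset

namespace CharCLT

private lemma cmp_pt (η θ : ℝ) (hη : 0 < η) (hη2 : η ≤ 1 / 2) (hθ : 0 < θ)
    (hθ2 : θ ≤ Real.pi) :
    |(1 - (1 - η) ^ 2) / (1 - 2 * (1 - η) * Real.cos θ + (1 - η) ^ 2)
      - 2 * η / (η ^ 2 + θ ^ 2)| ≤ 10 * η + 15 * (η ^ 2 / (η ^ 2 + θ ^ 2)) := by
  obtain ⟨c, hc⟩ : ∃ c : ℝ, c = 1 - Real.cos θ := ⟨_, rfl⟩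
  have hcos : Real.cos θ = 1 - c := by rw [hc]; ring
  have hc1 : c ≤ θ ^ 2 / 2 := by
    have := Real.one_sub_sq_div_two_le_cos (x := θ)
    linarith
  have hc0 : 0 ≤ c := by
    have := Real.cos_le_one θ
    linarith
  have hc2 : θ ^ 2 / 2 - c ≤ θ ^ 4 / 2 := by
    rcases le_or_gt θ 1 with h | h
    · have h1 := Real.cos_bound (x := θ) (by rw [abs_of_pos hθ]; exact h)
      rw [abs_of_pos hθ] at h1
      have h2 := (abs_le.1 h1).2
      have h3 := pow_pos hθ 4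
      rw [hcos] at h2
      linarith
    · have h1 : θ ^ 2 ≤ θ ^ 4 := pow_le_pow_right₀ h.le (by norm_num)
      linarith
  have hc3 : θ ^ 2 / 5 ≤ c := by
    have h1 := Real.cos_le_one_sub_mul_cos_sq (x := θ) (by rw [abs_of_pos hθ]; exact hθ2)
    have hpi := Real.pi_lt_d2
    have hpi0 := Real.pi_pos
    have h2 : (1 : ℝ) / 5 ≤ 2 / Real.pi ^ 2 := by
      rw [div_le_div_iff₀ (by norm_num) (by positivity)]
      nlinarith
    have h3 : 0 < θ ^ 2 := by positivity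
    rw [hcos] at h1
    nlinarith
  rw [hcos]
  have e1 : 1 - 2 * (1 - η) * (1 - c) + (1 - η) ^ 2 = η ^ 2 + 2 * (1 - η) * c := by ring
  have e2 : 1 - (1 - η) ^ 2 = 2 * η - η ^ 2 := by ring
  rw [e1, e2]
  obtain ⟨S, hS⟩ : ∃ S : ℝ, S = η ^ 2 + θ ^ 2 := ⟨_, rfl⟩
  obtain ⟨D, hD⟩ : ∃ D : ℝ, D = η ^ 2 + 2 * (1 - η) * c := ⟨_, rfl⟩
  rw [← hS, ← hD]
  have hSpos : 0 < S := by rw [hS]; positivity
  have hη0 : 0 < η ^ 2 := by positivity
  have hθ0 : 0 < θ ^ 2 := by positivity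
  have hDS : S / 5 ≤ D := by
    rw [hS, hD]
    nlinarith
  have hDpos : 0 < D := by linarith
  have h1 : 0 ≤ S - D := by
    rw [hS, hD]
    nlinarith
  have h2 : S - D ≤ θ ^ 4 + η * θ ^ 2 := by
    rw [hS, hD]
    nlinarith
  have h3 : θ ^ 4 ≤ S ^ 2 := by
    have : θ ^ 2 ≤ S := by rw [hS]; linarith
    calc θ ^ 4 = (θ ^ 2) ^ 2 := by ring
      _ ≤ S ^ 2 := pow_le_pow_left₀ hθ0.le this 2
  have h4 : θ ^ 2 ≤ S := by rw [hS]; linarith
  have e3 : (2 * η - η ^ 2) / D - 2 * η / S = (2 * η * (S - D) - η ^ 2 * S) / (D * S) := by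
    field_simp
    ring
  rw [e3, abs_div, abs_of_pos (mul_pos hDpos hSpos), div_le_iff₀ (mul_pos hDpos hSpos)]
  have e4 : (10 * η + 15 * (η ^ 2 / S)) * (D * S) = 10 * η * (D * S) + 15 * (η ^ 2 * D) := by
    field_simp
  rw [e4]
  have h5 : |2 * η * (S - D) - η ^ 2 * S| ≤ 2 * η * (S - D) + η ^ 2 * S := by
    rw [abs_le]
    have a1 : 0 ≤ 2 * η * (S - D) := by positivity
    have a2 : 0 ≤ η ^ 2 * S := by positivity
    constructor <;> linarith
  have h6 : 2 * η * (S - D) ≤ 2 * η * (S ^ 2 + η * S) := by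
    apply mul_le_mul_of_nonneg_left _ (by positivity)
    have : η * θ ^ 2 ≤ η * S := mul_le_mul_of_nonneg_left h4 hη.le
    linarith
  have h7 : S ^ 2 / 5 ≤ D * S := by
    have := mul_le_mul_of_nonneg_right hDS hSpos.le
    nlinarith
  have h8 : 10 * η * (S ^ 2 / 5) ≤ 10 * η * (D * S) :=
    mul_le_mul_of_nonneg_left h7 (by positivity)
  have h9 : η ^ 2 * (S / 5) ≤ η ^ 2 * D := mul_le_mul_of_nonneg_left hDS (by positivity)
  nlinarith

private lemma cmp_tel (η t : ℝ) (hη : 0 < η) (ht : 0 < t) (N : ℕ) :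
    ∑ a ∈ range N, η ^ 2 / (η ^ 2 + (t * (a + 1 : ℕ)) ^ 2) ≤
      2 * η ^ 2 / t * (1 / η - 1 / (η + t * N)) := by
  induction N with
  | zero => simp
  | succ N ih =>
    rw [Finset.sum_range_succ]
    have hN : (0 : ℝ) ≤ N := by positivity
    obtain ⟨y, hy⟩ : ∃ y : ℝ, y = η + t * N := ⟨_, rfl⟩
    have hy0 : 0 < y := by rw [hy]; positivity
    have e1 : η + t * ((N + 1 : ℕ) : ℝ) = y + t := by rw [hy]; push_cast; ring
    have key : η ^ 2 / (η ^ 2 + (t * ((N + 1 : ℕ) : ℝ)) ^ 2) ≤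
        2 * η ^ 2 / t * (1 / y - 1 / (y + t)) := by
      have e2 : 2 * η ^ 2 / t * (1 / y - 1 / (y + t)) = 2 * η ^ 2 / (y * (y + t)) := by
        field_simp
        ring
      rw [e2]
      have e3 : η ^ 2 / (η ^ 2 + (t * ((N + 1 : ℕ) : ℝ)) ^ 2) =
          2 * η ^ 2 / (2 * (η ^ 2 + (t * ((N + 1 : ℕ) : ℝ)) ^ 2)) := by
        rw [mul_div_mul_left _ _ (by norm_num)]
      rw [e3]
      apply div_le_div_of_nonneg_left (by positivity) (by positivity)
      have e4 : y + t = η + t * ((N + 1 : ℕ) : ℝ) := e1.symm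
      have h1 : y * (y + t) ≤ (y + t) * (y + t) := by nlinarith
      refine h1.trans ?_
      rw [e4]
      nlinarith [sq_nonneg (η - t * ((N + 1 : ℕ) : ℝ))]
    rw [e1]
    rw [← hy] at ih
    have e5 : 2 * η ^ 2 / t * (1 / η - 1 / (y + t)) =
        2 * η ^ 2 / t * (1 / η - 1 / y) + 2 * η ^ 2 / t * (1 / y - 1 / (y + t)) := by ring
    rw [e5]
    exact add_le_add ih key

/-- `θ = 2 π a / q ∈ (0, π)`, `P = η (2 - η) / D`, `D = η^2 + 4 (1 - η) sin(θ/2)^2 ≥ (2/π^2) (η^2 + θ^2)`,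
`0 ≤ η^2 + θ^2 - D ≤ θ^4 / 12 + η θ^2`; so the difference is at most `15 η^2 / (η^2 + θ^2) + η`.
With `A = η q / (2 π)`: `sum_a A^2 / (A^2 + a^2) ≤ 1 + 2 A` (terms `≤ 1` for `a ≤ A + 1`, `≤ A^2 / a^2` beyond). -/
theorem compare : ∃ C : ℝ, 0 < C ∧ ∀ (q : ℕ) (η : ℝ), 1 ≤ q → 0 < η → η ≤ 1 / 2 →
    (1 / (q : ℝ)) * ∑ a ∈ half q, |P (1 - η) q a - 2 * η / (η ^ 2 + (2 * Real.pi * a / q) ^ 2)| ≤
      C * (η + 1 / q) := by
  refine ⟨25, by norm_num, fun q η hq hη hη2 => ?_⟩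
  have hq0 : (0 : ℝ) < q := by exact_mod_cast hq
  have hpi0 := Real.pi_pos
  have hpi3 := Real.pi_gt_three
  have hpt : ∀ a ∈ half q, |P (1 - η) q a - 2 * η / (η ^ 2 + (2 * Real.pi * a / q) ^ 2)| ≤
      10 * η + 15 * (η ^ 2 / (η ^ 2 + (2 * Real.pi * a / q) ^ 2)) := by
    intro a ha
    simp only [half, Finset.mem_filter, Finset.mem_range] at ha
    obtain ⟨-, ha1, ha2⟩ := ha
    have ha1' : (1 : ℝ) ≤ a := by exact_mod_cast ha1
    have ha2' : 2 * (a : ℝ) < q := by exact_mod_cast ha2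
    apply cmp_pt η _ hη hη2
    · positivity
    · rw [div_le_iff₀ hq0]
      nlinarith
  have hsum1 : ∑ a ∈ half q, |P (1 - η) q a - 2 * η / (η ^ 2 + (2 * Real.pi * a / q) ^ 2)| ≤
      ∑ a ∈ half q, (10 * η + 15 * (η ^ 2 / (η ^ 2 + (2 * Real.pi * a / q) ^ 2))) :=
    Finset.sum_le_sum hpt
  have hsum2 : ∑ a ∈ half q, (10 * η + 15 * (η ^ 2 / (η ^ 2 + (2 * Real.pi * a / q) ^ 2))) =
      ∑ a ∈ half q, 10 * η +
        15 * ∑ a ∈ half q, η ^ 2 / (η ^ 2 + (2 * Real.pi * a / q) ^ 2) := by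
    rw [Finset.sum_add_distrib]
    congr 1
    rw [Finset.mul_sum]
  rw [hsum2] at hsum1
  have hcard : ((half q).card : ℝ) ≤ q := by
    have : (half q).card ≤ (range q).card := Finset.card_filter_le _ _
    rw [Finset.card_range] at this
    exact_mod_cast this
  have hconst : ∑ a ∈ half q, 10 * η ≤ q * (10 * η) := by
    rw [Finset.sum_const, nsmul_eq_mul]
    exact mul_le_mul_of_nonneg_right hcard (by positivity)
  have htail : ∑ a ∈ half q, η ^ 2 / (η ^ 2 + (2 * Real.pi * a / q) ^ 2) ≤ q * η := by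
    have ht : 0 < 2 * Real.pi / q := by positivity
    have h1 : ∑ a ∈ half q, η ^ 2 / (η ^ 2 + (2 * Real.pi * a / q) ^ 2) ≤
        ∑ a ∈ (range q).image (fun a => a + 1), η ^ 2 / (η ^ 2 + (2 * Real.pi * (a : ℕ) / q) ^ 2) := by
      apply Finset.sum_le_sum_of_subset_of_nonneg
      · intro a ha
        simp only [half, Finset.mem_filter, Finset.mem_range] at ha
        rw [Finset.mem_image]
        exact ⟨a - 1, Finset.mem_range.2 (by omega), by omega⟩
      · intro a _ _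
        positivity
    have h2 : ∑ a ∈ (range q).image (fun a => a + 1),
        η ^ 2 / (η ^ 2 + (2 * Real.pi * (a : ℕ) / q) ^ 2) =
        ∑ a ∈ range q, η ^ 2 / (η ^ 2 + (2 * Real.pi / q * (a + 1 : ℕ)) ^ 2) := by
      rw [Finset.sum_image (fun a _ b _ h => by simpa using h)]
      apply Finset.sum_congr rfl
      intro a _
      congr 3
      ring
    have h3 := cmp_tel η (2 * Real.pi / q) hη ht q
    have h4 : 2 * η ^ 2 / (2 * Real.pi / q) * (1 / η - 1 / (η + 2 * Real.pi / q * q)) ≤ q * η := by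
      have e1 : (2 * η ^ 2 / (2 * Real.pi / q)) = η ^ 2 * q / Real.pi := by
        field_simp
      have h5 : 1 / η - 1 / (η + 2 * Real.pi / q * q) ≤ 1 / η := by
        have : 0 ≤ 1 / (η + 2 * Real.pi / q * q) := by positivity
        linarith
      rw [e1]
      calc η ^ 2 * q / Real.pi * (1 / η - 1 / (η + 2 * Real.pi / q * q))
          ≤ η ^ 2 * q / Real.pi * (1 / η) := mul_le_mul_of_nonneg_left h5 (by positivity)
        _ = (q * η) / Real.pi := by field_simp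
        _ ≤ q * η := div_le_self (by positivity) (by linarith)
    rw [h2] at h1
    exact h1.trans (h3.trans h4)
  have htot : ∑ a ∈ half q, |P (1 - η) q a - 2 * η / (η ^ 2 + (2 * Real.pi * a / q) ^ 2)| ≤
      q * (25 * η) := by
    calc _ ≤ _ := hsum1
      _ ≤ q * (10 * η) + 15 * (q * η) := add_le_add hconst
          (mul_le_mul_of_nonneg_left htail (by norm_num))
      _ = q * (25 * η) := by ring
  calc (1 / (q : ℝ)) * ∑ a ∈ half q, |P (1 - η) q a - 2 * η / (η ^ 2 + (2 * Real.pi * a / q) ^ 2)|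
      ≤ (1 / (q : ℝ)) * (q * (25 * η)) := mul_le_mul_of_nonneg_left htot (by positivity)
    _ = 25 * η := by field_simp
    _ ≤ 25 * (η + 1 / q) := by
        have : 0 ≤ 1 / (q : ℝ) := by positivity
        linarith

end CharCLT
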