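import Mathlib

/-! # Leaf: density of the functions `1 / (1 + μ y)` -/

set_option autoImplicit false

open Filter Topology Finset

namespace CharCLT

private noncomputable def dnsF (μ : {μ : ℝ // 0 ≤ μ}) : C(Set.Icc (0 : ℝ) 1, ℝ) where
  toFun y := 1 / (1 + μ.1 * y.1)
  continuous_toFun := by
    refine Continuous.div continuous_const (by fun_prop) fun y => ?_
    have h1 := mul_nonneg μ.2 y.2.1
    linarith

private theorem dnsF_apply (μ : {μ : ℝ // 0 ≤ μ}) (y : Set.Icc (0 : ℝ) 1) :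
    dnsF μ y = 1 / (1 + μ.1 * y.1) := rfl

private theorem dns_pos (μ : {μ : ℝ // 0 ≤ μ}) (y : Set.Icc (0 : ℝ) 1) : 0 < 1 + μ.1 * y.1 := by
  have h1 := mul_nonneg μ.2 y.2.1
  linarith

private noncomputable def dnsS : Submodule ℝ C(Set.Icc (0 : ℝ) 1, ℝ) :=
  Submodule.span ℝ (Set.range dnsF)

private noncomputable def dnsM : Submodule ℝ C(Set.Icc (0 : ℝ) 1, ℝ) := dnsS.topologicalClosure

private theorem dns_le : dnsS ≤ dnsM := Submodule.le_topologicalClosure _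

private theorem dns_closed : IsClosed (dnsM : Set C(Set.Icc (0 : ℝ) 1, ℝ)) :=
  Submodule.isClosed_topologicalClosure _

private theorem dns_mem (μ : {μ : ℝ // 0 ≤ μ}) : dnsF μ ∈ dnsS :=
  Submodule.subset_span ⟨μ, rfl⟩

private theorem dns_alg {m n A B : ℝ} (hA : A ≠ 0) (hB : B ≠ 0) (hmn : m - n ≠ 0)
    (h : m * B - n * A = m - n) :
    1 / A * (1 / B) = (m - n)⁻¹ * m * (1 / A) - (m - n)⁻¹ * n * (1 / B) := by
  have h1 : (m - n)⁻¹ * m * (1 / A) - (m - n)⁻¹ * n * (1 / B) =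
      (m - n)⁻¹ * ((m * B - n * A) / (A * B)) := by
    field_simp
  have h2 : (m - n)⁻¹ * ((m - n) / (A * B)) = 1 / (A * B) := by
    rw [← mul_div_assoc, inv_mul_cancel₀ hmn]
  rw [h1, h, h2, one_div_mul_one_div]

private theorem dns_mul_ne {μ ν : {μ : ℝ // 0 ≤ μ}} (h : μ.1 ≠ ν.1) :
    dnsF μ * dnsF ν ∈ dnsS := by
  have e : dnsF μ * dnsF ν =
      ((μ.1 - ν.1)⁻¹ * μ.1) • dnsF μ - ((μ.1 - ν.1)⁻¹ * ν.1) • dnsF ν := by
    ext y
    have h1 := (dns_pos μ y).ne'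
    have h2 := (dns_pos ν y).ne'
    have h3 : μ.1 - ν.1 ≠ 0 := sub_ne_zero.mpr h
    rw [ContinuousMap.mul_apply, ContinuousMap.sub_apply, ContinuousMap.smul_apply,
      ContinuousMap.smul_apply, dnsF_apply, dnsF_apply, smul_eq_mul, smul_eq_mul]
    exact dns_alg h1 h2 h3 (by ring)
  rw [e]
  exact dnsS.sub_mem (dnsS.smul_mem _ (dns_mem μ)) (dnsS.smul_mem _ (dns_mem ν))

private theorem dns_norm (μ ν : {μ : ℝ // 0 ≤ μ}) : ‖dnsF ν - dnsF μ‖ ≤ |ν.1 - μ.1| := by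
  rw [ContinuousMap.norm_le _ (abs_nonneg _)]
  intro y
  have h1 := dns_pos μ y
  have h2 := dns_pos ν y
  have e : (dnsF ν - dnsF μ) y = (μ.1 - ν.1) * y.1 / ((1 + ν.1 * y.1) * (1 + μ.1 * y.1)) := by
    rw [ContinuousMap.sub_apply, dnsF_apply, dnsF_apply, div_sub_div _ _ h2.ne' h1.ne']
    congr 1
    ring
  have h3 : 1 ≤ (1 + ν.1 * y.1) * (1 + μ.1 * y.1) := by
    have a1 := mul_nonneg μ.2 y.2.1
    have a2 := mul_nonneg ν.2 y.2.1
    nlinarith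
  rw [e, Real.norm_eq_abs, abs_div, abs_mul, abs_of_nonneg y.2.1,
    abs_of_pos (lt_of_lt_of_le one_pos h3), div_le_iff₀ (lt_of_lt_of_le one_pos h3), abs_sub_comm]
  have h4 : |ν.1 - μ.1| * y.1 ≤ |ν.1 - μ.1| * 1 := mul_le_mul_of_nonneg_left y.2.2 (abs_nonneg _)
  have h5 : |ν.1 - μ.1| * 1 ≤ |ν.1 - μ.1| * ((1 + ν.1 * y.1) * (1 + μ.1 * y.1)) :=
    mul_le_mul_of_nonneg_left h3 (abs_nonneg _)
  exact h4.trans h5

private theorem dns_mul_gen (μ ν : {μ : ℝ // 0 ≤ μ}) : dnsF μ * dnsF ν ∈ dnsM := by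
  by_cases h : μ.1 = ν.1
  · have hμν : μ = ν := Subtype.ext h
    subst hμν
    let s : ℕ → {μ : ℝ // 0 ≤ μ} := fun n =>
      ⟨μ.1 + 1 / ((n : ℝ) + 1), add_nonneg μ.2 (by positivity)⟩
    have hs : Tendsto (fun n => dnsF (s n)) atTop (𝓝 (dnsF μ)) := by
      rw [tendsto_iff_norm_sub_tendsto_zero]
      refine squeeze_zero (fun _ => norm_nonneg _) (fun n => dns_norm μ (s n)) ?_
      have e : (fun n : ℕ => |(s n).1 - μ.1|) = fun n : ℕ => 1 / ((n : ℝ) + 1) := by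
        funext n
        have : (s n).1 - μ.1 = 1 / ((n : ℝ) + 1) := by
          change μ.1 + 1 / ((n : ℝ) + 1) - μ.1 = _
          ring
        rw [this, abs_of_nonneg (by positivity)]
      rw [e]
      exact tendsto_one_div_add_atTop_nhds_zero_nat
    have ht : Tendsto (fun n => dnsF μ * dnsF (s n)) atTop (𝓝 (dnsF μ * dnsF μ)) :=
      hs.const_mul _
    refine dns_closed.mem_of_tendsto ht (Eventually.of_forall fun n => dns_le (dns_mul_ne ?_))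
    have : (0 : ℝ) < 1 / ((n : ℝ) + 1) := by positivity
    change μ.1 ≠ μ.1 + 1 / ((n : ℝ) + 1)
    linarith
  · exact dns_le (dns_mul_ne h)

private theorem dns_mul {a b : C(Set.Icc (0 : ℝ) 1, ℝ)} (ha : a ∈ dnsM) (hb : b ∈ dnsM) :
    a * b ∈ dnsM := by
  have h1 : ∀ μ, dnsM ≤ dnsM.comap (LinearMap.mulLeft ℝ (dnsF μ)) := by
    intro μ
    refine Submodule.topologicalClosure_minimal _ ?_ ?_
    · refine Submodule.span_le.mpr ?_
      rintro _ ⟨ν, rfl⟩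
      exact dns_mul_gen μ ν
    · exact dns_closed.preimage (continuous_const.mul continuous_id)
  have h2 : dnsM ≤ dnsM.comap (LinearMap.mulRight ℝ b) := by
    refine Submodule.topologicalClosure_minimal _ ?_ ?_
    · refine Submodule.span_le.mpr ?_
      rintro _ ⟨ν, rfl⟩
      exact h1 ν hb
    · exact dns_closed.preimage (continuous_id.mul continuous_const)
  exact h2 ha

private theorem dns_one : (1 : C(Set.Icc (0 : ℝ) 1, ℝ)) ∈ dnsM := by
  have e : (1 : C(Set.Icc (0 : ℝ) 1, ℝ)) = dnsF ⟨0, le_refl 0⟩ := by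
    ext y
    rw [dnsF_apply, ContinuousMap.one_apply]
    simp
  rw [e]
  exact dns_le (dns_mem _)

private noncomputable def dnsA : Subalgebra ℝ C(Set.Icc (0 : ℝ) 1, ℝ) where
  carrier := dnsM
  mul_mem' := fun ha hb => dns_mul ha hb
  add_mem' := fun ha hb => dnsM.add_mem ha hb
  algebraMap_mem' := by
    intro r
    rw [Algebra.algebraMap_eq_smul_one]
    exact dnsM.smul_mem r dns_one

private theorem dns_sep : dnsA.SeparatesPoints := by
  intro x y hxy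
  refine ⟨_, ⟨dnsF ⟨1, zero_le_one⟩, dns_le (dns_mem _), rfl⟩, ?_⟩
  intro h
  apply hxy
  replace h : dnsF ⟨1, zero_le_one⟩ x = dnsF ⟨1, zero_le_one⟩ y := h
  rw [dnsF_apply, dnsF_apply] at h
  have h1 := dns_pos ⟨1, zero_le_one⟩ x
  have h2 := dns_pos ⟨1, zero_le_one⟩ y
  rw [div_eq_div_iff h1.ne' h2.ne'] at h
  apply Subtype.ext
  linarith

/-- Induction on `n`: `y^n / (1 + μ y)^(n+1)`, `μ ≥ 0`, is a uniform limit on `[0,1]` of finite combinations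
of `1 / (1 + ν y)`, `ν ≥ 0`, being the limit of `(K_(n-1)(μ) - K_(n-1)(μ + h)) / (n h)`; at `μ = 0` one gets `y^n`;
Weierstrass (`exists_polynomial_near_of_continuousOn`). -/
theorem dense (g : ℝ → ℝ) (hg : ContinuousOn g (Set.Icc 0 1)) {ε : ℝ} (hε : 0 < ε) :
    ∃ (n : ℕ) (c μ : Fin n → ℝ), (∀ i, 0 ≤ μ i) ∧
      ∀ y ∈ Set.Icc (0 : ℝ) 1, |g y - ∑ i, c i / (1 + μ i * y)| ≤ ε := by
  classical
  let G : C(Set.Icc (0 : ℝ) 1, ℝ) := ⟨fun y => g y.1, continuousOn_iff_continuous_domRestrict.mp hg⟩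
  obtain ⟨a, ha⟩ := ContinuousMap.exists_mem_subalgebra_near_continuousMap_of_separatesPoints
    dnsA dns_sep G (ε / 2) (half_pos hε)
  have haM : (a : C(Set.Icc (0 : ℝ) 1, ℝ)) ∈ closure (dnsS : Set C(Set.Icc (0 : ℝ) 1, ℝ)) := a.2
  obtain ⟨s, hs, hsa⟩ := Metric.mem_closure_iff.mp haM (ε / 2) (half_pos hε)
  have hs' : s ∈ Submodule.span ℝ (Set.range dnsF) := hs
  rw [Finsupp.mem_span_range_iff_exists_finsupp] at hs'
  obtain ⟨c, hc⟩ := hs'
  let e := c.support.equivFin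
  refine ⟨c.support.card, fun i => c (e.symm i).1, fun i => (e.symm i).1.1,
    fun i => (e.symm i).1.2, ?_⟩
  intro y hy
  have hsum : ∑ i, c (e.symm i).1 / (1 + (e.symm i).1.1 * y) = s ⟨y, hy⟩ := by
    have h1 : ∑ i, c (e.symm i).1 / (1 + (e.symm i).1.1 * y) =
        ∑ j : c.support, c j.1 / (1 + j.1.1 * y) :=
      Equiv.sum_comp e.symm (fun j : c.support => c j.1 / (1 + j.1.1 * y))
    rw [h1, Finset.sum_coe_sort c.support (fun j => c j / (1 + j.1 * y)), ← hc, Finsupp.sum,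
      ContinuousMap.sum_apply]
    refine Finset.sum_congr rfl fun j _ => ?_
    rw [ContinuousMap.smul_apply, dnsF_apply, smul_eq_mul, mul_one_div]
  rw [hsum]
  have h2 : |(a : C(Set.Icc (0 : ℝ) 1, ℝ)) ⟨y, hy⟩ - g y| ≤ ε / 2 := by
    have := ContinuousMap.norm_coe_le_norm ((a : C(Set.Icc (0 : ℝ) 1, ℝ)) - G) ⟨y, hy⟩
    rw [ContinuousMap.sub_apply, Real.norm_eq_abs] at this
    exact this.trans ha.le
  have h3 : |(a : C(Set.Icc (0 : ℝ) 1, ℝ)) ⟨y, hy⟩ - s ⟨y, hy⟩| ≤ ε / 2 := by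
    rw [dist_eq_norm] at hsa
    have := ContinuousMap.norm_coe_le_norm ((a : C(Set.Icc (0 : ℝ) 1, ℝ)) - s) ⟨y, hy⟩
    rw [ContinuousMap.sub_apply, Real.norm_eq_abs] at this
    exact this.trans hsa.le
  have h4 : g y - s ⟨y, hy⟩ = -((a : C(Set.Icc (0 : ℝ) 1, ℝ)) ⟨y, hy⟩ - g y) +
      ((a : C(Set.Icc (0 : ℝ) 1, ℝ)) ⟨y, hy⟩ - s ⟨y, hy⟩) := by ring
  rw [h4]
  refine (abs_add_le _ _).trans ?_
  rw [abs_neg]
  linarith

end CharCLT
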