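import Mathlib

/-! # Leaf: a Riemann sum -/

set_option autoImplicit false

open Filter Topology Finset

namespace CharCLT

private theorem riemann_tel {x : ℝ} (hx : 1 ≤ x) (N : ℕ) :
    ∑ a ∈ Icc 1 N, 1 / (1 + ((a : ℝ) / x) ^ 2) ≤ 2 * x ^ 2 * (1 / x - 1 / (x + N)) := by
  have hx0 : 0 < x := by linarith
  induction N with
  | zero => simp
  | succ N ih =>
    rw [Finset.sum_Icc_succ_top (by omega)]
    have hN : (0 : ℝ) ≤ N := Nat.cast_nonneg N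
    have h1 : 1 / (1 + (((N + 1 : ℕ) : ℝ) / x) ^ 2) ≤
        2 * x ^ 2 * (1 / (x + N) - 1 / (x + ((N + 1 : ℕ) : ℝ))) := by
      push_cast
      have e1 : 1 / (1 + (((N : ℝ) + 1) / x) ^ 2) = x ^ 2 / (x ^ 2 + ((N : ℝ) + 1) ^ 2) := by
        field_simp
      have e2 : 2 * x ^ 2 * (1 / (x + N) - 1 / (x + ((N : ℝ) + 1))) =
          x ^ 2 * (2 / ((x + N) * (x + N + 1))) := by
        have h2 : x + N ≠ 0 := by positivity
        have h3 : x + ((N : ℝ) + 1) ≠ 0 := by positivity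
        have h4 : x + (N : ℝ) + 1 ≠ 0 := by positivity
        field_simp
        ring
      rw [e1, e2, div_eq_mul_inv]
      refine mul_le_mul_of_nonneg_left ?_ (by positivity)
      rw [inv_eq_one_div, div_le_div_iff₀ (by positivity) (by positivity)]
      nlinarith [sq_nonneg (x - ((N : ℝ) + 1))]
    have h5 : 2 * x ^ 2 * (1 / x - 1 / (x + ((N + 1 : ℕ) : ℝ))) =
        2 * x ^ 2 * (1 / x - 1 / (x + N)) +
          2 * x ^ 2 * (1 / (x + N) - 1 / (x + ((N + 1 : ℕ) : ℝ))) := by ring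
    rw [h5]
    exact add_le_add ih h1

private theorem riemann_count {u ε x : ℝ} (hu : 0 < u) (hε : 0 < ε) (hx : 1 ≤ x) (N : ℕ) :
    ∑ a ∈ Icc 1 N, (if u < (a : ℝ) / x ∧ (a : ℝ) / x ≤ u + ε then (1 : ℝ) else 0) ≤
      ε * x + 1 := by
  classical
  have hx0 : 0 < x := by linarith
  rw [← Finset.sum_filter, Finset.sum_const, nsmul_eq_mul, mul_one]
  have hsub : (Icc 1 N).filter (fun a : ℕ => u < (a : ℝ) / x ∧ (a : ℝ) / x ≤ u + ε) ⊆
      Ioc ⌊u * x⌋₊ ⌊(u + ε) * x⌋₊ := by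
    intro a ha
    rw [mem_filter] at ha
    obtain ⟨-, h1, h2⟩ := ha
    rw [lt_div_iff₀ hx0] at h1
    rw [div_le_iff₀ hx0] at h2
    rw [mem_Ioc]
    exact ⟨(Nat.floor_lt (by positivity)).2 h1, Nat.le_floor h2⟩
  have h1 : (((Icc 1 N).filter
      (fun a : ℕ => u < (a : ℝ) / x ∧ (a : ℝ) / x ≤ u + ε)).card : ℝ) ≤
      ((Ioc ⌊u * x⌋₊ ⌊(u + ε) * x⌋₊).card : ℝ) := by
    exact_mod_cast card_le_card hsub
  refine h1.trans ?_
  rw [Nat.card_Ioc]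
  have hle : ⌊u * x⌋₊ ≤ ⌊(u + ε) * x⌋₊ := Nat.floor_mono (by nlinarith)
  rw [Nat.cast_sub hle]
  have h2 : (⌊(u + ε) * x⌋₊ : ℝ) ≤ (u + ε) * x := Nat.floor_le (by positivity)
  have h3 : u * x < (⌊u * x⌋₊ : ℝ) + 1 := Nat.lt_floor_add_one _
  linarith

/-- `sum_(a ≤ x) ≤ x`, `sum_(a > x) x^2 / a^2 ≤ 2 x`; at most `ε x + 1` integers in `(u x, (u + ε) x]`. -/
theorem riemann {u ε x : ℝ} (hu : 0 < u) (hε : 0 < ε) (hx : 1 ≤ x) (N : ℕ) :
    (1 / x) * ∑ a ∈ Icc 1 N, (ε / (1 + ((a : ℝ) / x) ^ 2) +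
      (if u < (a : ℝ) / x ∧ (a : ℝ) / x ≤ u + ε then (1 : ℝ) else 0)) ≤ 5 * ε + 1 / x := by
  have hx0 : 0 < x := by linarith
  rw [Finset.sum_add_distrib]
  have h1 : ∑ a ∈ Icc 1 N, ε / (1 + ((a : ℝ) / x) ^ 2) ≤ ε * (2 * x) := by
    have h2 : ∑ a ∈ Icc 1 N, ε / (1 + ((a : ℝ) / x) ^ 2) =
        ε * ∑ a ∈ Icc 1 N, 1 / (1 + ((a : ℝ) / x) ^ 2) := by
      rw [Finset.mul_sum]
      exact Finset.sum_congr rfl fun a _ => by rw [mul_one_div]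
    rw [h2]
    refine mul_le_mul_of_nonneg_left ?_ hε.le
    refine (riemann_tel hx N).trans ?_
    have h3 : 0 ≤ 1 / (x + N) := by positivity
    have h4 : 2 * x ^ 2 * (1 / x - 1 / (x + N)) ≤ 2 * x ^ 2 * (1 / x) :=
      mul_le_mul_of_nonneg_left (by linarith) (by positivity)
    refine h4.trans (le_of_eq ?_)
    field_simp
  have h5 := riemann_count hu hε hx N
  calc (1 / x) * (∑ a ∈ Icc 1 N, ε / (1 + ((a : ℝ) / x) ^ 2) +
        ∑ a ∈ Icc 1 N, (if u < (a : ℝ) / x ∧ (a : ℝ) / x ≤ u + ε then (1 : ℝ) else 0))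
      ≤ (1 / x) * (ε * (2 * x) + (ε * x + 1)) :=
        mul_le_mul_of_nonneg_left (add_le_add h1 h5) (by positivity)
    _ = 3 * ε + 1 / x := by field_simp; ring
    _ ≤ 5 * ε + 1 / x := by linarith

end CharCLT
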