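import Pool.Agent.Lib.MP_f2256b_ntT14.Scale
import Pool.Agent.Lib.MP_f2256b_ntT14.Approx
import Pool.Agent.Lib.MP_f2256b_ntT14.Riemann

/-! # Leaf: the character sums -/

set_option autoImplicit false

open ProbabilityTheory MeasureTheory Filter Topology Finset

namespace CharCLT

/-- The sum over `Icc 1 ⌊u q / H⌋` as a sum over `half q`. -/
private theorem final_set {q H : ℕ} (hq : 0 < q) (hH : 0 < H) (χ : DirichletCharacter ℂ q) {u : ℝ}
    (hu : 0 < u) (hHu : 2 * u < (H : ℝ)) :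
    ∑ n ∈ Icc 1 ⌊u * ((q : ℝ) / H)⌋₊, χ (n : ZMod q) ^ 2 =
      ∑ a ∈ half q, χ (a : ZMod q) ^ 2 * ((if (a : ℝ) * H / q ≤ u then (1 : ℝ) else 0 : ℝ) : ℂ) := by
  have hq0 : (0 : ℝ) < q := by exact_mod_cast hq
  have hH0 : (0 : ℝ) < H := by exact_mod_cast hH
  have hs : Icc 1 ⌊u * ((q : ℝ) / H)⌋₊ = (half q).filter fun a : ℕ => (a : ℝ) * H / q ≤ u := by
    ext a
    rw [Finset.mem_Icc, Finset.mem_filter, half, Finset.mem_filter, Finset.mem_range,
      Nat.le_floor_iff (by positivity)]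
    have e : (a : ℝ) ≤ u * ((q : ℝ) / H) ↔ (a : ℝ) * H / q ≤ u := by
      rw [div_le_iff₀ hq0, ← mul_div_assoc, le_div_iff₀ hH0]
    rw [e]
    constructor
    · rintro ⟨h1, h2⟩
      have h3 : (a : ℝ) * H ≤ u * q := by rwa [div_le_iff₀ hq0] at h2
      have h4 : 2 * (a : ℝ) < q := by
        have h5 : 2 * (a : ℝ) * H < q * H := by nlinarith
        exact lt_of_mul_lt_mul_right h5 hH0.le
      have h6 : 2 * a < q := by exact_mod_cast h4
      exact ⟨⟨by omega, h1, h6⟩, h2⟩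
    · rintro ⟨⟨_, h1, _⟩, h2⟩
      exact ⟨h1, h2⟩
  rw [hs, Finset.sum_filter]
  refine Finset.sum_congr rfl fun a _ => ?_
  split_ifs with h
  · rw [Complex.ofReal_one, mul_one]
  · rw [Complex.ofReal_zero, mul_zero]

/-- Splits the indicator function into the kernels and the error. -/
private theorem final_split {n : ℕ} (A : Finset ℕ) (X : ℕ → ℂ) (f : ℕ → ℝ) (c : Fin n → ℝ)
    (K : Fin n → ℕ → ℝ) (h : ℂ) :
    h * ∑ a ∈ A, X a * (f a : ℂ) = ∑ i, (c i : ℂ) * (h * ∑ a ∈ A, X a * (K i a : ℂ)) +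
      h * ∑ a ∈ A, X a * ((f a - ∑ i, c i * K i a : ℝ) : ℂ) := by
  have h1 : ∑ i, (c i : ℂ) * (h * ∑ a ∈ A, X a * (K i a : ℂ)) =
      h * ∑ a ∈ A, X a * ((∑ i, c i * K i a : ℝ) : ℂ) := by
    rw [Finset.mul_sum A]
    simp_rw [Finset.mul_sum A]
    rw [Finset.sum_comm]
    refine Finset.sum_congr rfl fun a _ => ?_
    push_cast
    rw [Finset.mul_sum, Finset.mul_sum]
    refine Finset.sum_congr rfl fun i _ => ?_
    ring
  rw [h1, ← mul_add, ← Finset.sum_add_distrib]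
  congr 1
  refine Finset.sum_congr rfl fun a _ => ?_
  rw [Complex.ofReal_sub]
  ring

private theorem final_err {q H : ℕ} (hH : 0 < H) (hHq : H ≤ q) (χ : DirichletCharacter ℂ q)
    {u ε : ℝ} (hu : 0 < u) (hε : 0 < ε) (r : ℕ → ℝ)
    (hr : ∀ a ∈ half q, |r a| ≤ ε / (1 + ((a : ℝ) * H / q) ^ 2) +
      (if u < (a : ℝ) * H / q ∧ (a : ℝ) * H / q ≤ u + ε then (1 : ℝ) else 0)) :
    ‖((H : ℝ) / q : ℂ) * ∑ a ∈ half q, χ (a : ZMod q) ^ 2 * (r a : ℂ)‖ ≤ 5 * ε + (H : ℝ) / q := by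
  have hH0 : (0 : ℝ) < H := by exact_mod_cast hH
  have hHq' : (H : ℝ) ≤ q := by exact_mod_cast hHq
  have hq0 : (0 : ℝ) < q := lt_of_lt_of_le hH0 hHq'
  have hx : (1 : ℝ) ≤ (q : ℝ) / H := by rw [le_div_iff₀ hH0, one_mul]; exact hHq'
  have h1 := riemann hu hε hx q
  have e1 : (1 : ℝ) / ((q : ℝ) / H) = (H : ℝ) / q := by rw [one_div_div]
  have e2 : ∀ a : ℕ, (a : ℝ) / ((q : ℝ) / H) = (a : ℝ) * H / q := fun a => by
    rw [div_div_eq_mul_div]
  rw [e1] at h1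
  simp only [e2] at h1
  refine le_trans ?_ h1
  have e3 : ((H : ℝ) / q : ℂ) = (((H : ℝ) / q : ℝ) : ℂ) := by push_cast; rfl
  rw [e3, norm_mul, Complex.norm_real, Real.norm_of_nonneg (by positivity)]
  refine mul_le_mul_of_nonneg_left ?_ (by positivity)
  refine (norm_sum_le _ _).trans ?_
  have hsub : half q ⊆ Icc 1 q := by
    intro a ha
    rw [half, Finset.mem_filter, Finset.mem_range] at ha
    rw [Finset.mem_Icc]
    omega
  refine le_trans (Finset.sum_le_sum fun a ha => ?_)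
    (Finset.sum_le_sum_of_subset_of_nonneg hsub fun a _ _ => ?_)
  · rw [norm_mul, norm_pow, Complex.norm_real, Real.norm_eq_abs]
    have h2 : ‖χ (a : ZMod q)‖ ^ 2 ≤ 1 := pow_le_one₀ (norm_nonneg _) (χ.norm_le_one _)
    have h3 := mul_le_mul_of_nonneg_right h2 (abs_nonneg (r a))
    rw [one_mul] at h3
    exact h3.trans (hr a ha)
  · have h2 : 0 ≤ ε / (1 + ((a : ℝ) * H / q) ^ 2) := by positivity
    split_ifs <;> linarith

/-- `x = q / H → ∞` (`clt_small`). For large `k` the set `Icc 1 ⌊u x⌋` is the set of the `a ∈ half q` with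
`a / x ≤ u` (`2 u x < q` as `H > 2 u`). Replace the indicator by `approx` (with `ε' = ε / 12`); error at most
`5 ε' + 1 / x` by `riemann` (`half q ⊆ Icc 1 q`), the finitely many kernel means tend to zero by `cauchy_mean`. -/
theorem sums {q : ℕ → ℕ} {χ : (k : ℕ) → DirichletCharacter ℂ (q k)} {H : ℕ → ℕ}
    (hq : ∀ k, (q k).Prime) (hχ : ∀ k, χ k ^ 2 ≠ 1) (hH : ∀ k, 1 ≤ H k ∧ H k ≤ q k)
    (hHt : Tendsto (fun k => (H k : ℝ)) atTop atTop) (hall : AllCLT q χ H) {u : ℝ} (hu : 0 < u) :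
    Tendsto (fun k => (H k : ℝ) / q k *
      ‖∑ n ∈ Icc 1 ⌊u * ((q k : ℝ) / H k)⌋₊, χ k (n : ZMod (q k)) ^ 2‖) atTop (𝓝 0) := by
  have hc : CLT q χ H := hall H hH ⟨1, one_pos, fun k => ⟨by rw [one_mul], by rw [one_mul]⟩⟩
  have hx0 := clt_small hq hχ hH hc
  rw [Metric.tendsto_nhds]
  intro ε hε
  obtain ⟨n, c, s, hs, hap⟩ := approx hu (show 0 < ε / 12 by positivity)
  have hm : Tendsto (fun k => ∑ i : Fin n, (c i : ℂ) * (((H k : ℝ) / q k : ℂ) *
      ∑ a ∈ half (q k), χ k (a : ZMod (q k)) ^ 2 *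
        ((2 * s i / (s i ^ 2 + (2 * Real.pi * (a * H k / q k)) ^ 2) : ℝ) : ℂ))) atTop (𝓝 0) := by
    have h1 := tendsto_finsetSum (Finset.univ : Finset (Fin n)) fun i _ =>
      (cauchy_mean hq hχ hH hHt hall (hs i)).const_mul (c i : ℂ)
    simpa using h1
  have hm' := hm.norm
  rw [norm_zero] at hm'
  have e1 := hm'.eventually_lt_const (show (0 : ℝ) < ε / 4 by positivity)
  have e2 : ∀ᶠ k in atTop, (H k : ℝ) / q k < ε / 4 := hx0.eventually_lt_const (by positivity)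
  have e3 : ∀ᶠ k in atTop, 2 * u < (H k : ℝ) := hHt.eventually_gt_atTop _
  filter_upwards [e1, e2, e3] with k h1 h2 h3
  have hqk : 0 < q k := (hq k).pos
  have hHk : 0 < H k := (hH k).1
  have hq0 : (0 : ℝ) < q k := by exact_mod_cast hqk
  have hH0 : (0 : ℝ) < H k := by exact_mod_cast hHk
  have h4 : (H k : ℝ) / q k * ‖∑ n ∈ Icc 1 ⌊u * ((q k : ℝ) / H k)⌋₊, χ k (n : ZMod (q k)) ^ 2‖ =
      ‖((H k : ℝ) / q k : ℂ) * ∑ a ∈ half (q k), χ k (a : ZMod (q k)) ^ 2 *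
        ((if (a : ℝ) * H k / q k ≤ u then (1 : ℝ) else 0 : ℝ) : ℂ)‖ := by
    rw [final_set hqk hHk (χ k) hu h3]
    have e4 : ((H k : ℝ) / q k : ℂ) = (((H k : ℝ) / q k : ℝ) : ℂ) := by push_cast; rfl
    rw [e4, norm_mul, Complex.norm_real, Real.norm_of_nonneg (by positivity)]
  rw [h4, final_split (half (q k)) (fun a => χ k (a : ZMod (q k)) ^ 2)
    (fun a => if (a : ℝ) * H k / q k ≤ u then (1 : ℝ) else 0) c
    (fun i a => 2 * s i / (s i ^ 2 + (2 * Real.pi * (a * H k / q k)) ^ 2)) ((H k : ℝ) / q k : ℂ)]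
  have h5 := final_err hHk (hH k).2 (χ k) hu (show 0 < ε / 12 by positivity)
    (fun a => (if (a : ℝ) * H k / q k ≤ u then (1 : ℝ) else 0) -
      ∑ i, c i * (2 * s i / (s i ^ 2 + (2 * Real.pi * (a * H k / q k)) ^ 2)))
    (fun a ha => hap ((a : ℝ) * H k / q k) (by
      rw [half, Finset.mem_filter] at ha
      have : (0 : ℝ) < a := by exact_mod_cast ha.2.1
      positivity))
  rw [Real.dist_eq, sub_zero, abs_of_nonneg (norm_nonneg _)]
  refine (norm_add_le _ _).trans_lt ?_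
  have h6 := add_lt_add_of_lt_of_le h1 h5
  refine h6.trans ?_
  linarith

end CharCLT
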