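import Pool.Agent.Lib.MP_f2256b_ntT14.Base

/-! # MP_f2256b_nt: symmetry `a ↦ q - a` -/

set_option autoImplicit false

open Filter Topology Finset

namespace CharCLT

/-- `a ↦ q - a`, `χ(-a)^2 = χ(a)^2`, `χ(0) = 0`, `P` is even and periodic. -/
theorem sum_half {q : ℕ} (hq : q.Prime) (hq2 : 2 < q) (χ : DirichletCharacter ℂ q) (r : ℝ) :
    ∑ a ∈ range q, χ (a : ZMod q) ^ 2 * (P r q a : ℂ) =
      2 * ∑ a ∈ half q, χ (a : ZMod q) ^ 2 * (P r q a : ℂ) := by
  haveI : Fact q.Prime := ⟨hq⟩
  set f : ℕ → ℂ := fun a => χ (a : ZMod q) ^ 2 * (P r q a : ℂ) with hf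
  have hodd : q % 2 = 1 := by
    rcases hq.eq_two_or_odd with h | h
    · omega
    · exact h
  have hq0 : (q : ℝ) ≠ 0 := by exact_mod_cast hq.ne_zero
  have h0 : f 0 = 0 := by
    have : χ ((0 : ℕ) : ZMod q) = 0 := by
      rw [Nat.cast_zero]
      exact MulChar.map_nonunit χ not_isUnit_zero
    simp only [hf]
    rw [this]
    simp
  have h1 : ∀ a ∈ half q, f (q - a) = f a := by
    intro a ha
    simp only [half, mem_filter, mem_range] at ha
    have haq : a ≤ q := by omega
    have e1 : ((q - a : ℕ) : ZMod q) = -1 * (a : ZMod q) := by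
      rw [Nat.cast_sub haq, ZMod.natCast_self]; ring
    have e2 : χ (-1 : ZMod q) ^ 2 = 1 := by
      rw [← map_pow]; simp
    have e3 : P r q (q - a) = P r q a := by
      unfold P
      have : Real.cos (2 * Real.pi * ((q - a : ℕ) : ℝ) / q) = Real.cos (2 * Real.pi * a / q) := by
        rw [Nat.cast_sub haq]
        have e4 : 2 * Real.pi * ((q : ℝ) - a) / q = 2 * Real.pi - 2 * Real.pi * a / q := by
          field_simp
        rw [e4, Real.cos_two_pi_sub]
      rw [this]
    simp only [hf]
    rw [e1, map_mul, mul_pow, e2, one_mul, e3]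
  have h2 : ∑ a ∈ half q, f (q - a) = ∑ a ∈ (range q).filter (fun a => 1 ≤ a ∧ ¬ 2 * a < q), f a := by
    refine Finset.sum_nbij' (fun a => q - a) (fun a => q - a) ?_ ?_ ?_ ?_ ?_
    · intro a ha
      simp only [half, mem_filter, mem_range] at ha ⊢
      omega
    · intro a ha
      simp only [half, mem_filter, mem_range] at ha ⊢
      omega
    · intro a ha
      simp only [half, mem_filter, mem_range] at ha
      omega
    · intro a ha
      simp only [mem_filter, mem_range] at ha
      omega
    · intro a _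
      rfl
  have h3 : ∑ a ∈ range q, f a = f 0 + (∑ a ∈ half q, f a +
      ∑ a ∈ (range q).filter (fun a => 1 ≤ a ∧ ¬ 2 * a < q), f a) := by
    have e1 : range q = insert 0 ((range q).filter fun a => 1 ≤ a) := by
      ext a
      simp only [mem_insert, mem_filter, mem_range]
      omega
    have e2 : ∑ a ∈ (range q).filter (fun a => 1 ≤ a), f a = ∑ a ∈ half q, f a +
        ∑ a ∈ (range q).filter (fun a => 1 ≤ a ∧ ¬ 2 * a < q), f a := by
      rw [← Finset.sum_filter_add_sum_filter_not ((range q).filter fun a => 1 ≤ a) (fun a => 2 * a < q)]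
      rw [Finset.filter_filter, Finset.filter_filter]
      rfl
    rw [← e2]
    conv_lhs => rw [e1]
    rw [Finset.sum_insert (by simp)]
  show ∑ a ∈ range q, f a = 2 * ∑ a ∈ half q, f a
  rw [h3, h0, ← h2, Finset.sum_congr rfl h1]
  ring

end CharCLT
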