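import Pool.Agent.Lib.MP_f2256b_ntT14.Base

/-! # Leaf: trivial bound for the Fejer means -/

set_option autoImplicit false

open ProbabilityTheory MeasureTheory Filter Topology Finset

namespace CharCLT

private theorem ml_geom {q : ℕ} {r : ℂ} (h1 : r ^ q = 1) (h2 : r ≠ 1) :
    ∑ a ∈ range q, r ^ a = 0 := by
  have h3 := geom_sum_mul r q
  rw [h1, sub_self] at h3
  exact (mul_eq_zero.mp h3).resolve_right (sub_ne_zero.mpr h2)

private theorem ml_count {q H j : ℕ} (hq : 1 ≤ q) :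
    ((range H).filter fun k => j % q = k % q).card ≤ H / q + 1 := by
  have h1 := Nat.count_modEq_card H (r := q) (by omega) j
  have h2 : Nat.count (fun x => x ≡ j [MOD q]) H =
      ((range H).filter fun k => j % q = k % q).card := by
    rw [Nat.count_eq_card_filter_range]
    congr 1
    ext k
    rw [mem_filter, mem_filter]
    exact and_congr_right fun _ => ⟨fun h => Eq.symm h, fun h => Eq.symm h⟩
  rw [← h2, h1]
  split_ifs <;> omega

private theorem ml_sum {q H : ℕ} (hq1 : 1 ≤ q) :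
    ∑ a ∈ range q, ‖∑ j ∈ range H,
      Complex.exp (2 * Real.pi * Complex.I * (a * j / q))‖ ^ 2 ≤
        (H : ℝ) * (((H / q : ℕ) : ℝ) + 1) * q := by
  have hq : q ≠ 0 := by omega
  have hqC : (q : ℂ) ≠ 0 := by exact_mod_cast hq
  set ζ : ℂ := Complex.exp (2 * Real.pi * Complex.I / q) with hζ
  have hprim : IsPrimitiveRoot ζ q := Complex.isPrimitiveRoot_exp q hq
  have hexp : ∀ a j : ℕ, Complex.exp (2 * Real.pi * Complex.I * (a * j / q)) = (ζ ^ j) ^ a := by
    intro a j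
    rw [hζ, ← Complex.exp_nat_mul, ← Complex.exp_nat_mul]
    congr 1
    field_simp
  have hnorm : ‖ζ‖ = 1 := hprim.norm'_eq_one hq
  have hconj : ∀ k : ℕ, (starRingEnd ℂ) (ζ ^ k) = (ζ ^ k)⁻¹ := by
    intro k
    rw [Complex.inv_def, Complex.normSq_eq_norm_sq, norm_pow, hnorm]
    simp
  have hmod : ∀ j : ℕ, ζ ^ j = ζ ^ (j % q) := fun j => by
    conv_lhs => rw [← Nat.div_add_mod j q, pow_add, pow_mul, hprim.pow_eq_one, one_pow, one_mul]
  have key : ∀ j k : ℕ,
      ∑ a ∈ range q, (ζ ^ j) ^ a * (starRingEnd ℂ) ((ζ ^ k) ^ a) =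
        if j % q = k % q then (q : ℂ) else 0 := by
    intro j k
    have e : ∀ a : ℕ, (ζ ^ j) ^ a * (starRingEnd ℂ) ((ζ ^ k) ^ a) = (ζ ^ j * (ζ ^ k)⁻¹) ^ a := by
      intro a
      rw [map_pow, hconj, ← mul_pow]
    simp only [e]
    have hne : ζ ^ k ≠ 0 := pow_ne_zero _ (hprim.ne_zero hq)
    split_ifs with hjk
    · rw [hmod j, hjk, ← hmod k, mul_inv_cancel₀ hne]
      simp
    · refine ml_geom ?_ ?_
      · rw [mul_pow, inv_pow, ← pow_mul, ← pow_mul, mul_comm j q, mul_comm k q, pow_mul, pow_mul,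
          hprim.pow_eq_one]
        simp
      · intro h
        have h2 : ζ ^ j = ζ ^ k := (mul_inv_eq_one₀ hne).mp h
        rw [hmod j, hmod k] at h2
        exact hjk (hprim.pow_inj (Nat.mod_lt _ hq1) (Nat.mod_lt _ hq1) h2)
  have hC : ((∑ a ∈ range q, ‖∑ j ∈ range H,
      Complex.exp (2 * Real.pi * Complex.I * (a * j / q))‖ ^ 2 : ℝ) : ℂ) =
      ((∑ j ∈ range H, (((range H).filter fun k => j % q = k % q).card : ℝ) * q : ℝ) : ℂ) := by
    rw [Complex.ofReal_sum]
    have h1 : ∀ a ∈ range q, ((‖∑ j ∈ range H,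
        Complex.exp (2 * Real.pi * Complex.I * (a * j / q))‖ ^ 2 : ℝ) : ℂ) =
        ∑ j ∈ range H, ∑ k ∈ range H, (ζ ^ j) ^ a * (starRingEnd ℂ) ((ζ ^ k) ^ a) := by
      intro a _
      rw [Complex.ofReal_pow, ← Complex.mul_conj', map_sum, Finset.sum_mul_sum]
      simp only [hexp]
    rw [Finset.sum_congr rfl h1, Finset.sum_comm, Complex.ofReal_sum]
    refine Finset.sum_congr rfl fun j _ => ?_
    rw [Finset.sum_comm, Finset.sum_congr rfl fun k _ => key j k, ← Finset.sum_filter,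
      Finset.sum_const, nsmul_eq_mul]
    push_cast
    rfl
  have hR : ∑ a ∈ range q, ‖∑ j ∈ range H,
      Complex.exp (2 * Real.pi * Complex.I * (a * j / q))‖ ^ 2 =
      ∑ j ∈ range H, (((range H).filter fun k => j % q = k % q).card : ℝ) * q := by
    exact_mod_cast hC
  rw [hR]
  calc ∑ j ∈ range H, (((range H).filter fun k => j % q = k % q).card : ℝ) * q
      ≤ ∑ j ∈ range H, ((((H / q : ℕ) : ℝ) + 1) * q) := by
        refine Finset.sum_le_sum fun j _ => ?_
        have := ml_count (q := q) (H := H) (j := j) hq1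
        have h2 : (((range H).filter fun k => j % q = k % q).card : ℝ) ≤ ((H / q : ℕ) : ℝ) + 1 := by
          exact_mod_cast this
        gcongr
    _ = _ := by
        rw [Finset.sum_const, card_range, nsmul_eq_mul]
        ring

/-- `sum_(a < q) q h w(h, a) = q * #{(i, j) : i, j < h, i = j mod q} ≤ q h (h / q + 1)`, here `h + 1` in
place of `h`; `|χ| ≤ 1`. -/
theorem M_le {q : ℕ} (hq : 1 ≤ q) (χ : DirichletCharacter ℂ q) (h : ℕ) :
    ‖M χ (h + 1)‖ ≤ 1 + ((h : ℝ) + 1) / q := by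
  have hq0 : (0 : ℝ) < q := by exact_mod_cast hq
  have hH0 : (0 : ℝ) < ((h + 1 : ℕ) : ℝ) := by positivity
  have h1 : ‖M χ (h + 1)‖ ≤ ∑ a ∈ range q, w q (h + 1) a := by
    unfold M
    refine (norm_sum_le _ _).trans (Finset.sum_le_sum fun a _ => ?_)
    have hw : 0 ≤ w q (h + 1) a := by
      unfold w
      positivity
    rw [norm_mul, norm_pow, Complex.norm_real, Real.norm_of_nonneg hw]
    have h2 := χ.norm_le_one (a : ZMod q)
    have h3 : ‖χ (a : ZMod q)‖ ^ 2 ≤ 1 := pow_le_one₀ (norm_nonneg _) h2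
    nlinarith
  refine h1.trans ?_
  unfold w
  rw [← Finset.sum_div, div_le_iff₀ (by positivity)]
  refine (ml_sum hq).trans ?_
  have h2 : (((h + 1) / q : ℕ) : ℝ) ≤ ((h + 1 : ℕ) : ℝ) / q := Nat.cast_div_le
  have h3 : ((h + 1 : ℕ) : ℝ) = (h : ℝ) + 1 := by push_cast; rfl
  calc ((h + 1 : ℕ) : ℝ) * ((((h + 1) / q : ℕ) : ℝ) + 1) * q
      ≤ ((h + 1 : ℕ) : ℝ) * (((h + 1 : ℕ) : ℝ) / q + 1) * q := by gcongr
    _ = (1 + ((h : ℝ) + 1) / q) * ((q : ℝ) * ((h + 1 : ℕ) : ℝ)) := by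
        rw [h3]
        ring

end CharCLT
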