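import Pool.Agent.Lib.MP_f2256b_ntT14.Final
import Pool.Agent.Lib.MP_f2256b_ntT14.Bound2

/-! # MP_f2256b_nt, character sums: assembly -/

set_option autoImplicit false

open ProbabilityTheory MeasureTheory Filter Topology Finset

namespace CharCLT

theorem all_of_Q1b (hQ : Q1b) {q : ℕ → ℕ} {χ : (k : ℕ) → DirichletCharacter ℂ (q k)} {H : ℕ → ℕ}
    (hq : ∀ k, (q k).Prime) (hχ : ∀ k, χ k ^ 2 ≠ 1) (hH : ∀ k, 1 ≤ H k ∧ H k ≤ q k)
    (hHt : Tendsto (fun k => (H k : ℝ)) atTop atTop)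
    (hqt : Tendsto (fun k => (q k : ℝ)) atTop atTop)
    (hlt : Tendsto (fun k => Real.log ((q k : ℝ) / (H k : ℝ)) / Real.log (Real.log (q k : ℝ)))
      atTop atTop) : AllCLT q χ H := by
  intro h hh ⟨δ, hδ, hδh⟩
  have hh0 : ∀ k, (0 : ℝ) < h k := fun k => by exact_mod_cast (hh k).1
  have hH0 : ∀ k, (0 : ℝ) < H k := fun k => by exact_mod_cast (hH k).1
  have hq0 : ∀ k, (0 : ℝ) < q k := fun k => by exact_mod_cast (hq k).pos
  refine hQ q χ h hq hχ hh ?_ hqt ?_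
  · exact tendsto_atTop_mono (fun k => (hδh k).1) (hHt.const_mul_atTop hδ)
  · have hl : Tendsto (fun k => Real.log (Real.log (q k : ℝ))) atTop atTop :=
      Real.tendsto_log_atTop.comp (Real.tendsto_log_atTop.comp hqt)
    have h1 : Tendsto (fun k => Real.log δ / Real.log (Real.log (q k : ℝ))) atTop (𝓝 0) :=
      hl.const_div_atTop _
    refine tendsto_atTop_mono' _ ?_ (hlt.atTop_add h1)
    filter_upwards [hl.eventually_gt_atTop 0] with k hk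
    rw [← add_div]
    gcongr
    rw [← Real.log_mul (div_pos (hq0 k) (hH0 k)).ne' hδ.ne']
    refine Real.log_le_log (by have := hq0 k; have := hH0 k; positivity) ?_
    rw [div_mul_eq_mul_div, div_le_div_iff₀ (hH0 k) (hh0 k)]
    have := (hδh k).2
    nlinarith [hq0 k]

theorem main2 :
    (∀ (q : ℕ → ℕ) (χ : (k : ℕ) → DirichletCharacter ℂ (q k)) (H : ℕ → ℕ),
      (∀ k, (q k).Prime) → (∀ k, χ k ^ 2 ≠ 1) → (∀ k, 1 ≤ H k ∧ H k ≤ q k) →
      Tendsto (fun k => (H k : ℝ)) atTop atTop → AllCLT q χ H → ∀ u : ℝ, 0 < u →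
      Tendsto (fun k => (H k : ℝ) / q k *
        ‖∑ n ∈ Icc 1 ⌊u * ((q k : ℝ) / H k)⌋₊, χ k (n : ZMod (q k)) ^ 2‖) atTop (𝓝 0)) ∧
    (Q1b → ∀ ε : ℝ, 0 < ε → ∃ C : ℕ, ∀ q : ℕ, q.Prime → ∀ χ : DirichletCharacter ℂ q,
      χ ^ 2 ≠ 1 → ∀ x : ℕ, Real.log q ^ C ≤ x → x ^ 2 ≤ q →
        ‖∑ n ∈ Icc 1 x, χ (n : ZMod q) ^ 2‖ ≤ ε * x) := by
  refine ⟨fun q χ H hq hχ hH hHt hall u hu => sums hq hχ hH hHt hall hu, fun hQ =>
    bound2 fun q χ H hq hχ hH hHt hqt hlt => ?_⟩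
  have := sums hq hχ hH hHt (all_of_Q1b hQ hq hχ hH hHt hqt hlt) one_pos
  simpa only [one_mul] using this

end CharCLT
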