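import Pool.Agent.Lib.MP_f2256b_ntT14.Base

/-! # Leaf: the Poisson kernel as a superposition of Fejer kernels -/

set_option autoImplicit false

open ProbabilityTheory MeasureTheory Filter Topology Finset

namespace CharCLT

private theorem pois_norm {z : ℂ} (hz : ‖z‖ = 1) (n : ℕ) : ‖z ^ n - 1‖ ^ 2 = 2 - 2 * (z ^ n).re := by
  have h1 : ‖z ^ n‖ ^ 2 = 1 := by rw [norm_pow, hz, one_pow, one_pow]
  rw [← Complex.normSq_eq_norm_sq] at h1 ⊢
  rw [Complex.normSq_sub, h1, map_one, map_one, mul_one]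
  ring

private theorem pois_ne {z : ℂ} (hz : ‖z‖ = 1) (hz1 : z ≠ 1) {r : ℝ} (h0 : 0 < r) (h1 : r < 1) :
    HasSum (fun h : ℕ => (1 - r) ^ 2 * r ^ h * ‖∑ j ∈ Finset.range (h + 1), z ^ j‖ ^ 2)
      ((1 - r ^ 2) / (1 - 2 * r * z.re + r ^ 2)) := by
  have hs : z.re ^ 2 + z.im ^ 2 = 1 := by
    have h2 : ‖z‖ ^ 2 = 1 := by rw [hz, one_pow]
    rw [← Complex.normSq_eq_norm_sq, Complex.normSq_apply] at h2
    linarith
  have hc1 : z.re < 1 := by
    rcases lt_or_ge z.re 1 with h | h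
    · exact h
    · exfalso
      have h3 : z.im ^ 2 = 0 := by nlinarith [sq_nonneg z.im]
      have h4 : z.im = 0 := by simpa using h3
      have h5 : z.re = 1 := by nlinarith [sq_nonneg z.im]
      exact hz1 (Complex.ext (by simpa using h5) (by simpa using h4))
  have hD : 0 < 1 - 2 * r * z.re + r ^ 2 := by nlinarith [sq_nonneg (1 - r)]
  have hn : ‖(r : ℂ) * z‖ < 1 := by
    rw [norm_mul, hz, mul_one, Complex.norm_real, Real.norm_of_nonneg h0.le]
    exact h1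
  have g1 := hasSum_geometric_of_lt_one h0.le h1
  have g2 := (Complex.hasSum_re ((hasSum_geometric_of_norm_lt_one hn).mul_left z))
  have g3 := ((g1.mul_left 2).sub (g2.mul_left 2)).mul_left ((1 - r) ^ 2 / ‖z - 1‖ ^ 2)
  have hz1' : z - 1 ≠ 0 := sub_ne_zero.mpr hz1
  have hN : ‖z - 1‖ ^ 2 = 2 - 2 * z.re := by
    have := pois_norm hz 1
    rwa [pow_one] at this
  have hfun : (fun h : ℕ => (1 - r) ^ 2 * r ^ h * ‖∑ j ∈ Finset.range (h + 1), z ^ j‖ ^ 2) =
      fun h : ℕ => (1 - r) ^ 2 / ‖z - 1‖ ^ 2 * (2 * r ^ h - 2 * (z * ((r : ℂ) * z) ^ h).re) := by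
    funext h
    rw [geom_sum_eq hz1, norm_div, div_pow, pois_norm hz]
    have e1 : (z * ((r : ℂ) * z) ^ h).re = r ^ h * (z ^ (h + 1)).re := by
      rw [mul_pow, ← Complex.ofReal_pow]
      have : z * (((r ^ h : ℝ) : ℂ) * z ^ h) = ((r ^ h : ℝ) : ℂ) * z ^ (h + 1) := by ring
      rw [this, Complex.re_ofReal_mul]
    rw [e1]
    ring
  rw [hfun]
  have hval : (1 - r) ^ 2 / ‖z - 1‖ ^ 2 * (2 * (1 - r)⁻¹ - 2 * (z * (1 - (r : ℂ) * z)⁻¹).re) =
      (1 - r ^ 2) / (1 - 2 * r * z.re + r ^ 2) := by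
    obtain ⟨D, hDd⟩ : ∃ D, D = 1 - 2 * r * z.re + r ^ 2 := ⟨_, rfl⟩
    have hD0 : D ≠ 0 := by rw [hDd]; exact hD.ne'
    have e2 : (z * (1 - (r : ℂ) * z)⁻¹).re = (z.re - r) / D := by
      have e3 : Complex.normSq (1 - (r : ℂ) * z) = D := by
        rw [Complex.normSq_apply, hDd]
        simp
        nlinarith [hs]
      rw [Complex.mul_re, Complex.inv_re, Complex.inv_im, e3, eq_div_iff hD0]
      simp only [Complex.sub_re, Complex.sub_im, Complex.one_re, Complex.one_im, Complex.re_ofReal_mul,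
        Complex.im_ofReal_mul]
      have e5 : (z.re * ((1 - r * z.re) / D) - z.im * (-(0 - r * z.im) / D)) * D =
          z.re * (1 - r * z.re) - z.im * (r * z.im) := by
        field_simp
        ring
      rw [e5]
      linear_combination (-r) * hs
    rw [e2, hN, ← hDd]
    have h7 : 2 - 2 * z.re ≠ 0 := by linarith
    have h8 : 1 - r ≠ 0 := by linarith
    have h9 : (1 - r) ^ 2 / (2 - 2 * z.re) * (2 * (1 - r)⁻¹ - 2 * ((z.re - r) / D)) =
        ((1 - r) * (2 * D - 2 * (z.re - r) * (1 - r))) / ((2 - 2 * z.re) * D) := by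
      field_simp
    rw [h9, div_eq_div_iff (mul_ne_zero h7 hD0) hD0]
    rw [hDd]
    ring
  rw [← hval]
  exact g3

private theorem pois_one {r : ℝ} (h0 : 0 < r) (h1 : r < 1) :
    HasSum (fun h : ℕ => (1 - r) ^ 2 * r ^ h * ((h : ℝ) + 1) ^ 2) ((1 + r) / (1 - r)) := by
  have hn : ‖r‖ < 1 := by rw [Real.norm_of_nonneg h0.le]; exact h1
  have g1 := hasSum_choose_mul_geometric_of_norm_lt_one 2 hn
  have g2 := hasSum_choose_mul_geometric_of_norm_lt_one 1 hn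
  have g3 := ((g1.mul_left 2).sub g2).mul_left ((1 - r) ^ 2)
  have h8 : 1 - r ≠ 0 := by linarith
  have hval : (1 - r) ^ 2 * (2 * (1 / (1 - r) ^ (2 + 1)) - 1 / (1 - r) ^ (1 + 1)) = (1 + r) / (1 - r) := by
    field_simp
    ring
  rw [← hval]
  have hfun : (fun h : ℕ => (1 - r) ^ 2 * r ^ h * ((h : ℝ) + 1) ^ 2) = fun h : ℕ =>
      (1 - r) ^ 2 * (2 * ((((h + 2).choose 2 : ℕ) : ℝ) * r ^ h) - (((h + 1).choose 1 : ℕ) : ℝ) * r ^ h) := by
    funext h
    have e1 : (((h + 2).choose 2 : ℕ) : ℝ) = ((h : ℝ) + 2) * ((h : ℝ) + 1) / 2 := by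
      rw [Nat.cast_choose_two]
      push_cast
      ring
    have e2 : (((h + 1).choose 1 : ℕ) : ℝ) = (h : ℝ) + 1 := by
      rw [Nat.choose_one_right]
      push_cast
      ring
    rw [e1, e2]
    ring
  rw [hfun]
  exact g3

/-- With `F_h = |sum_(j < h) z^j|^2`, `z = e(a/q)`, `q h w(h) = F_h`:
`sum_(h ≥ 0) (1 - r)^2 r^h F_(h+1) = (1 - r^2) / |1 - r z|^2`. (For `z ≠ 1`: `F_h = |1 - z^h|^2 / |1 - z|^2`,
`|1 - z^h|^2 = 2 - z^h - conj`, geometric series; for `z = 1`: `F_h = h^2`.) -/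
theorem pois {q : ℕ} (hq : 1 ≤ q) {r : ℝ} (h0 : 0 < r) (h1 : r < 1) (a : ℕ) :
    HasSum (fun h : ℕ => (1 - r) ^ 2 * r ^ h * (q * ((h : ℝ) + 1) * w q (h + 1) a)) (P r q a) := by
  have hq0 : (0 : ℝ) < q := by exact_mod_cast hq
  obtain ⟨z, hzdef⟩ : ∃ z : ℂ, z = Complex.exp ((2 * Real.pi * a / q : ℝ) * Complex.I) := ⟨_, rfl⟩
  have hz : ‖z‖ = 1 := by rw [hzdef, Complex.norm_exp_ofReal_mul_I]
  have hre : z.re = Real.cos (2 * Real.pi * a / q) := by rw [hzdef, Complex.exp_ofReal_mul_I_re]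
  have hw : ∀ h : ℕ, (q : ℝ) * ((h : ℝ) + 1) * w q (h + 1) a =
      ‖∑ j ∈ Finset.range (h + 1), z ^ j‖ ^ 2 := by
    intro h
    have e1 : ∑ j ∈ Finset.range (h + 1), Complex.exp (2 * Real.pi * Complex.I * (a * j / q)) =
        ∑ j ∈ Finset.range (h + 1), z ^ j := by
      refine Finset.sum_congr rfl fun j _ => ?_
      rw [hzdef, ← Complex.exp_nat_mul]
      congr 1
      push_cast
      ring
    unfold w
    rw [e1]
    have h2 : (q : ℝ) * ((h : ℝ) + 1) ≠ 0 := by positivity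
    push_cast
    exact mul_div_cancel₀ _ h2
  simp only [hw]
  unfold P
  rw [← hre]
  rcases eq_or_ne z 1 with h1z | h1z
  · rw [h1z]
    have h3 := pois_one h0 h1
    have h4 : (1 - r ^ 2) / (1 - 2 * r * (1 : ℂ).re + r ^ 2) = (1 + r) / (1 - r) := by
      have h8 : 1 - r ≠ 0 := by linarith
      rw [Complex.one_re]
      have h9 : 1 - 2 * r * 1 + r ^ 2 = (1 - r) ^ 2 := by ring
      rw [h9]
      field_simp
      ring
    rw [h4]
    have hfun : (fun h : ℕ => (1 - r) ^ 2 * r ^ h * ‖∑ j ∈ Finset.range (h + 1), (1 : ℂ) ^ j‖ ^ 2) =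
        fun h : ℕ => (1 - r) ^ 2 * r ^ h * ((h : ℝ) + 1) ^ 2 := by
      funext h
      simp only [one_pow, Finset.sum_const, Finset.card_range, nsmul_eq_mul, mul_one]
      rw [Complex.norm_natCast]
      push_cast
      ring
    rw [hfun]
    exact h3
  · exact pois_ne hz h1z h0 h1

end CharCLT
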