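import Mathlib

/-! # Leaf: the weights of the superposition -/

set_option autoImplicit false

open Filter Topology Finset

namespace CharCLT

private theorem wt_c2 (n : ℕ) : ((n + 2).choose 2 : ℝ) = ((n : ℝ) + 1) * (n + 2) / 2 := by
  have h := Nat.cast_choose_two ℝ (n + 2)
  rw [h]
  push_cast
  ring

private theorem wt_c3 (n : ℕ) :
    ((n + 3).choose 3 : ℝ) = ((n : ℝ) + 1) * (n + 2) * (n + 3) / 6 := by
  have h := Nat.choose_succ_right_eq (n + 3) 2
  have h2 : n + 3 - 2 = n + 1 := by omega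
  rw [h2] at h
  have h3 := Nat.cast_choose_two ℝ (n + 3)
  have h4 : ((n + 3).choose 3 : ℝ) * 3 = ((n + 3).choose 2 : ℝ) * (n + 1) := by
    exact_mod_cast h
  rw [h3] at h4
  push_cast at h4
  linarith

private theorem wt_alg {η H q δ ε : ℝ} (hη : η ≠ 0) (hH : H ≠ 0) (hq : q ≠ 0) :
    η ^ 2 * (ε / 2 * (1 / η ^ (1 + 1)) + 2 * δ * H * (1 / η ^ (0 + 1)) +
      δ / H * (2 * (1 / η ^ (2 + 1)) + 6 / q * (1 / η ^ (3 + 1)))) =
      ε / 2 + δ * (2 * (H * η) + 2 / (H * η) + 6 / (H * η) ^ 2 * (H / q)) := by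
  field_simp
  ring

/-- `η = s / H`, `r = 1 - η`; `sum η^2 (h+1) r^h = 1`; the terms with `h + 1 < δ H` add up to at most
`η^2 (δ H)^2 * (1 + 1) = 2 s^2 δ^2`; those with `h + 1 > H / δ` to at most
`(δ / H) sum η^2 (h+1)^2 r^h (1 + (h+1)/q) ≤ (δ / H) (2 / η + 6 / (η^2 q)) ≤ δ (2 / s + 6 / s^2)`. -/
theorem weights {s ε : ℝ} (hs : 0 < s) (hε : 0 < ε) : ∃ δ : ℝ, 0 < δ ∧ δ ≤ 1 ∧
    ∀ (H q : ℕ) (m : ℕ → ℝ), 1 ≤ H → H ≤ q → s < H →
      (∀ h : ℕ, 0 ≤ m h ∧ m h ≤ 1 + ((h : ℝ) + 1) / q) →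
      (∀ h : ℕ, δ * H ≤ (h : ℝ) + 1 → δ * ((h : ℝ) + 1) ≤ H → m h ≤ ε / 2) →
      Summable (fun h : ℕ => (s / H) ^ 2 * (1 - s / H) ^ h * ((h : ℝ) + 1) * m h) ∧
      ∑' h : ℕ, (s / H) ^ 2 * (1 - s / H) ^ h * ((h : ℝ) + 1) * m h ≤ ε := by
  set K : ℝ := 2 * s + 2 / s + 6 / s ^ 2 with hK
  have hK0 : 0 < K := by positivity
  refine ⟨min 1 (ε / 2 / K), lt_min one_pos (by positivity), min_le_left _ _, ?_⟩
  intro H q m hH hHq hsH hm hmid
  set δ : ℝ := min 1 (ε / 2 / K) with hδ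
  have hδ0 : 0 < δ := lt_min one_pos (by positivity)
  have hδ1 : δ ≤ 1 := min_le_left _ _
  have hδK : δ * K ≤ ε / 2 := by
    have := min_le_right 1 (ε / 2 / K)
    rwa [← hδ, le_div_iff₀ hK0] at this
  have hHr : (1 : ℝ) ≤ H := by exact_mod_cast hH
  have hH0 : (0 : ℝ) < H := by linarith
  have hqr : (H : ℝ) ≤ q := by exact_mod_cast hHq
  have hq0 : (0 : ℝ) < q := by linarith
  set η : ℝ := s / H with hη
  have hη0 : 0 < η := by positivity
  have hη1 : η < 1 := by rwa [hη, div_lt_one hH0]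
  have hr0 : 0 ≤ 1 - η := by linarith
  have hr1 : ‖1 - η‖ < 1 := by
    rw [Real.norm_eq_abs, abs_of_nonneg hr0]
    linarith
  have e : 1 - (1 - η) = η := by ring
  have s0 := hasSum_choose_mul_geometric_of_norm_lt_one 0 hr1
  have s1 := hasSum_choose_mul_geometric_of_norm_lt_one 1 hr1
  have s2 := hasSum_choose_mul_geometric_of_norm_lt_one 2 hr1
  have s3 := hasSum_choose_mul_geometric_of_norm_lt_one 3 hr1
  rw [e] at s0 s1 s2 s3
  have hB := (((s1.mul_left (ε / 2)).add (s0.mul_left (2 * δ * H))).add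
    (((s2.mul_left 2).add (s3.mul_left (6 / (q : ℝ)))).mul_left (δ / H))).mul_left (η ^ 2)
  have hle : ∀ h : ℕ, η ^ 2 * (1 - η) ^ h * ((h : ℝ) + 1) * m h ≤
      η ^ 2 * (ε / 2 * (((h + 1).choose 1 : ℕ) * (1 - η) ^ h) +
        2 * δ * H * (((h + 0).choose 0 : ℕ) * (1 - η) ^ h) +
        δ / H * (2 * (((h + 2).choose 2 : ℕ) * (1 - η) ^ h) +
          6 / q * (((h + 3).choose 3 : ℕ) * (1 - η) ^ h))) := by
    intro h
    obtain ⟨hm0, hm1⟩ := hm h
    have hh : (0 : ℝ) ≤ h := Nat.cast_nonneg h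
    have hpow : 0 ≤ (1 - η) ^ h := pow_nonneg hr0 h
    have c1 : (((h + 1).choose 1 : ℕ) : ℝ) = (h : ℝ) + 1 := by
      rw [Nat.choose_one_right]
      push_cast
      ring
    have c0 : (((h + 0).choose 0 : ℕ) : ℝ) = 1 := by simp
    rw [c1, c0, wt_c2, wt_c3]
    have hkey : ((h : ℝ) + 1) * m h ≤ ε / 2 * ((h : ℝ) + 1) + 2 * δ * H +
        δ / H * (((h : ℝ) + 1) * (h + 2) + ((h : ℝ) + 1) * (h + 2) * (h + 3) / q) := by
      have p1 : 0 ≤ ε / 2 * ((h : ℝ) + 1) := by positivity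
      have p2 : 0 ≤ 2 * δ * H := by positivity
      have p3 : 0 ≤ δ / H * (((h : ℝ) + 1) * (h + 2) + ((h : ℝ) + 1) * (h + 2) * (h + 3) / q) := by
        positivity
      by_cases hlow : (h : ℝ) + 1 < δ * H
      · have h1 : ((h : ℝ) + 1) / q ≤ 1 := by
          rw [div_le_one hq0]
          nlinarith
        have h2 : m h ≤ 2 := by linarith
        have h3 : ((h : ℝ) + 1) * m h ≤ (δ * H) * 2 :=
          mul_le_mul hlow.le h2 hm0 (by positivity)
        linarith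
      · push Not at hlow
        by_cases hhigh : δ * ((h : ℝ) + 1) ≤ H
        · have h2 := hmid h hlow hhigh
          have h3 : ((h : ℝ) + 1) * m h ≤ ((h : ℝ) + 1) * (ε / 2) :=
            mul_le_mul_of_nonneg_left h2 (by positivity)
          linarith
        · push Not at hhigh
          have h1 : 1 ≤ δ / H * ((h : ℝ) + 1) := by
            rw [div_mul_eq_mul_div, le_div_iff₀ hH0]
            linarith
          have h2 : ((h : ℝ) + 1) * m h ≤ ((h : ℝ) + 1) * (1 + ((h : ℝ) + 1) / q) :=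
            mul_le_mul_of_nonneg_left hm1 (by positivity)
          have h3 : 0 ≤ ((h : ℝ) + 1) * (1 + ((h : ℝ) + 1) / q) := by positivity
          have h4 : ((h : ℝ) + 1) * (1 + ((h : ℝ) + 1) / q) ≤
              (δ / H * ((h : ℝ) + 1)) * (((h : ℝ) + 1) * (1 + ((h : ℝ) + 1) / q)) :=
            le_mul_of_one_le_left h3 h1
          have h5 : (δ / H * ((h : ℝ) + 1)) * (((h : ℝ) + 1) * (1 + ((h : ℝ) + 1) / q)) ≤
              δ / H * (((h : ℝ) + 1) * (h + 2) + ((h : ℝ) + 1) * (h + 2) * (h + 3) / q) := by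
            have h6 : (δ / H * ((h : ℝ) + 1)) * (((h : ℝ) + 1) * (1 + ((h : ℝ) + 1) / q)) =
                δ / H * (((h : ℝ) + 1) * (h + 1) + ((h : ℝ) + 1) * (h + 1) * (h + 1) / q) := by
              ring
            rw [h6]
            refine mul_le_mul_of_nonneg_left ?_ (by positivity)
            gcongr <;> linarith
          linarith
    have h7 := mul_le_mul_of_nonneg_left hkey (mul_nonneg (sq_nonneg η) hpow)
    calc η ^ 2 * (1 - η) ^ h * ((h : ℝ) + 1) * m h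
        = η ^ 2 * (1 - η) ^ h * (((h : ℝ) + 1) * m h) := by ring
      _ ≤ _ := h7
      _ = _ := by ring
  have hnn : ∀ h : ℕ, 0 ≤ η ^ 2 * (1 - η) ^ h * ((h : ℝ) + 1) * m h := fun h =>
    mul_nonneg (by have := pow_nonneg hr0 h; positivity) (hm h).1
  have hsum : Summable (fun h : ℕ => η ^ 2 * (1 - η) ^ h * ((h : ℝ) + 1) * m h) :=
    Summable.of_nonneg_of_le hnn hle hB.summable
  refine ⟨hsum, ?_⟩
  refine (hsum.tsum_le_tsum hle hB.summable).trans ?_
  rw [hB.tsum_eq]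
  have hHη : (H : ℝ) * η = s := by
    rw [hη]
    field_simp
  have t1 := wt_alg (δ := δ) (ε := ε) hη0.ne' hH0.ne' hq0.ne'
  rw [hHη] at t1
  rw [t1]
  have t2 : 6 / s ^ 2 * (H / q : ℝ) ≤ 6 / s ^ 2 := by
    have : (H / q : ℝ) ≤ 1 := by rwa [div_le_one hq0]
    exact mul_le_of_le_one_right (by positivity) this
  have t3 : δ * (2 * s + 2 / s + 6 / s ^ 2 * (H / q)) ≤ δ * K :=
    mul_le_mul_of_nonneg_left (by rw [hK]; linarith) hδ0.le
  linarith

end CharCLT
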