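import Pool.Agent.Lib.MP_f2256b_ntT14.Unif
import Pool.Agent.Lib.MP_f2256b_ntT14.Pois
import Pool.Agent.Lib.MP_f2256b_ntT14.MLe
import Pool.Agent.Lib.MP_f2256b_ntT14.Weights
import Pool.Agent.Lib.MP_f2256b_ntT14.Compare
import Pool.Agent.Lib.MP_f2256b_ntT14.Half

/-! # Leaf: the means over the Cauchy kernels tend to zero -/

set_option autoImplicit false

open ProbabilityTheory MeasureTheory Filter Topology Finset

namespace CharCLT

/-- `(1/q) sum_(a < q) χ(a)^2 P(1 - s/H, q, a) → 0`: by `pois` it is `sum_h (s/H)^2 r^h (h+1) M(h+1)`;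
apply `weights` to `m h = ‖M(h+1)‖` (`M_le`), `unif` with `ε / 2` (eventually `H / δ ≤ q` by `clt_small`). -/
theorem poisson_mean {q : ℕ → ℕ} {χ : (k : ℕ) → DirichletCharacter ℂ (q k)} {H : ℕ → ℕ}
    (hq : ∀ k, (q k).Prime) (hχ : ∀ k, χ k ^ 2 ≠ 1) (hH : ∀ k, 1 ≤ H k ∧ H k ≤ q k)
    (hHt : Tendsto (fun k => (H k : ℝ)) atTop atTop) (hall : AllCLT q χ H) {s : ℝ} (hs : 0 < s) :
    Tendsto (fun k => (1 / (q k : ℂ)) *
      ∑ a ∈ range (q k), χ k (a : ZMod (q k)) ^ 2 * (P (1 - s / H k) (q k) a : ℂ)) atTop (𝓝 0) := by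
  rw [Metric.tendsto_nhds]
  intro ε hε
  obtain ⟨δ, hδ, hδ1, hw⟩ := weights hs (half_pos hε)
  have hcl : CLT q χ H := hall H hH ⟨1, one_pos, fun k => ⟨by simp, by simp⟩⟩
  have h1 := (clt_small hq hχ hH hcl).eventually (gt_mem_nhds hδ)
  have h2 := unif hq hχ hH hall hδ hδ1 (show 0 < ε / 2 / 2 by positivity)
  have h3 := hHt.eventually_gt_atTop s
  filter_upwards [h1, h2, h3] with k hk1 hk2 hk3
  have hq0 : (0 : ℝ) < q k := by exact_mod_cast (hq k).pos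
  have hH0 : (0 : ℝ) < H k := by exact_mod_cast (hH k).1
  have hqc : (q k : ℂ) ≠ 0 := by exact_mod_cast (hq k).ne_zero
  have hη : 0 < s / H k := by positivity
  have hη1 : s / H k < 1 := by rw [div_lt_one hH0]; exact hk3
  obtain ⟨hsum, hle⟩ := hw (H k) (q k) (fun h => ‖M (χ k) (h + 1)‖) (hH k).1 (hH k).2 hk3
    (fun h => ⟨norm_nonneg _, M_le (hq k).one_le (χ k) h⟩)
    (fun h ha hb => by
      refine hk2 (h + 1) (by omega) ?_ (by push_cast; exact ha) (by push_cast; exact hb)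
      rw [div_lt_iff₀ hq0] at hk1
      have h5 : δ * ((h : ℝ) + 1) < δ * q k := lt_of_le_of_lt hb hk1
      have h6 : (h : ℝ) + 1 < q k := lt_of_mul_lt_mul_left h5 hδ.le
      have h7 : h + 1 < q k := by exact_mod_cast h6
      exact h7.le)
  set r : ℝ := 1 - s / H k with hr
  have hr1 : 1 - r = s / H k := by rw [hr]; ring
  have hr0 : 0 < r := by rw [hr]; linarith
  have hrlt : r < 1 := by rw [hr]; linarith
  have hS : HasSum (fun h : ℕ => (1 / (q k : ℂ)) * ∑ a ∈ range (q k), χ k (a : ZMod (q k)) ^ 2 *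
      (((1 - r) ^ 2 * r ^ h * (q k * ((h : ℝ) + 1) * w (q k) (h + 1) a) : ℝ) : ℂ))
      ((1 / (q k : ℂ)) * ∑ a ∈ range (q k), χ k (a : ZMod (q k)) ^ 2 * (P r (q k) a : ℂ)) := by
    apply HasSum.mul_left
    apply hasSum_sum
    intro a _
    apply HasSum.mul_left
    exact Complex.hasSum_ofReal.2 (pois (hq k).one_le hr0 hrlt a)
  have hterm : ∀ h : ℕ, (1 / (q k : ℂ)) * ∑ a ∈ range (q k), χ k (a : ZMod (q k)) ^ 2 *
      (((1 - r) ^ 2 * r ^ h * (q k * ((h : ℝ) + 1) * w (q k) (h + 1) a) : ℝ) : ℂ) =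
      (((s / H k) ^ 2 * r ^ h * ((h : ℝ) + 1) : ℝ) : ℂ) * M (χ k) (h + 1) := by
    intro h
    rw [hr1]
    unfold M
    rw [Finset.mul_sum, Finset.mul_sum]
    refine Finset.sum_congr rfl fun a _ => ?_
    push_cast
    field_simp
  simp only [hterm] at hS
  have hnorm : ∀ h : ℕ, ‖(((s / H k) ^ 2 * r ^ h * ((h : ℝ) + 1) : ℝ) : ℂ) * M (χ k) (h + 1)‖ =
      (s / H k) ^ 2 * r ^ h * ((h : ℝ) + 1) * ‖M (χ k) (h + 1)‖ := by
    intro h
    rw [norm_mul, Complex.norm_real, Real.norm_eq_abs, abs_of_nonneg (by positivity)]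
  rw [dist_zero_right, ← hS.tsum_eq]
  have h8 : Summable fun h : ℕ =>
      ‖(((s / H k) ^ 2 * r ^ h * ((h : ℝ) + 1) : ℝ) : ℂ) * M (χ k) (h + 1)‖ := by
    simp only [hnorm]
    exact hsum
  refine lt_of_le_of_lt (norm_tsum_le_tsum_norm h8) ?_
  simp only [hnorm]
  refine lt_of_le_of_lt hle (by linarith)

/-- `sum_half`, `compare` with `η = s / H`, `(1/q) 2 η / (η^2 + (2πa/q)^2) = (H/q) 2 s / (s^2 + (2πaH/q)^2)`. -/
theorem cauchy_mean {q : ℕ → ℕ} {χ : (k : ℕ) → DirichletCharacter ℂ (q k)} {H : ℕ → ℕ}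
    (hq : ∀ k, (q k).Prime) (hχ : ∀ k, χ k ^ 2 ≠ 1) (hH : ∀ k, 1 ≤ H k ∧ H k ≤ q k)
    (hHt : Tendsto (fun k => (H k : ℝ)) atTop atTop) (hall : AllCLT q χ H) {s : ℝ} (hs : 0 < s) :
    Tendsto (fun k => ((H k : ℝ) / q k : ℂ) * ∑ a ∈ half (q k), χ k (a : ZMod (q k)) ^ 2 *
      ((2 * s / (s ^ 2 + (2 * Real.pi * (a * H k / q k)) ^ 2) : ℝ) : ℂ)) atTop (𝓝 0) := by
  have hp := (poisson_mean hq hχ hH hHt hall hs).const_mul (1 / 2 : ℂ)
  rw [mul_zero] at hp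
  obtain ⟨C, hC, hcmp⟩ := compare
  have hinv : Tendsto (fun k => ((H k : ℝ))⁻¹) atTop (𝓝 0) := hHt.inv_tendsto_atTop
  have hbd : Tendsto (fun k => C * ((s + 1) * ((H k : ℝ))⁻¹)) atTop (𝓝 0) := by
    have := (hinv.const_mul (s + 1)).const_mul C
    simpa using this
  have hdiff : Tendsto (fun k => (1 / 2 : ℂ) * ((1 / (q k : ℂ)) *
      ∑ a ∈ range (q k), χ k (a : ZMod (q k)) ^ 2 * (P (1 - s / H k) (q k) a : ℂ)) -
      ((H k : ℝ) / q k : ℂ) * ∑ a ∈ half (q k), χ k (a : ZMod (q k)) ^ 2 *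
      ((2 * s / (s ^ 2 + (2 * Real.pi * (a * H k / q k)) ^ 2) : ℝ) : ℂ)) atTop (𝓝 0) := by
    refine squeeze_zero_norm' ?_ hbd
    filter_upwards [hHt.eventually_gt_atTop (2 * s), hHt.eventually_gt_atTop 2] with k hk1 hk2
    have hq0 : (0 : ℝ) < q k := by exact_mod_cast (hq k).pos
    have hH0 : (0 : ℝ) < H k := by exact_mod_cast (hH k).1
    have hHq : (H k : ℝ) ≤ q k := by exact_mod_cast (hH k).2
    have hqc : (q k : ℂ) ≠ 0 := by exact_mod_cast (hq k).ne_zero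
    have hq2 : 2 < q k := by
      have : (2 : ℝ) < q k := by linarith
      exact_mod_cast this
    have hη : 0 < s / H k := by positivity
    have hη1 : s / H k ≤ 1 / 2 := by
      rw [div_le_iff₀ hH0]; linarith
    rw [sum_half (hq k) hq2 (χ k)]
    have hT : ∀ a : ℕ, ((H k : ℝ) / q k : ℂ) *
        ((2 * s / (s ^ 2 + (2 * Real.pi * (a * H k / q k)) ^ 2) : ℝ) : ℂ) =
        (1 / (q k : ℂ)) *
          ((2 * (s / H k) / ((s / H k) ^ 2 + (2 * Real.pi * a / q k) ^ 2) : ℝ) : ℂ) := by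
      intro a
      have hreal : ((H k : ℝ) / q k) * (2 * s / (s ^ 2 + (2 * Real.pi * (a * H k / q k)) ^ 2)) =
          (1 / (q k : ℝ)) * (2 * (s / H k) / ((s / H k) ^ 2 + (2 * Real.pi * a / q k) ^ 2)) := by
        have hd1 : s ^ 2 + (2 * Real.pi * (a * H k / q k)) ^ 2 ≠ 0 := by positivity
        have hd2 : (s / H k) ^ 2 + (2 * Real.pi * a / q k) ^ 2 ≠ 0 := by positivity
        have hrel : s ^ 2 + (2 * Real.pi * (a * H k / q k)) ^ 2 =
            (H k : ℝ) ^ 2 * ((s / H k) ^ 2 + (2 * Real.pi * a / q k) ^ 2) := by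
          field_simp
        rw [hrel]
        field_simp
      have h9 := congrArg (fun x : ℝ => (x : ℂ)) hreal
      simp only [Complex.ofReal_mul, Complex.ofReal_div, Complex.ofReal_natCast,
        Complex.ofReal_one] at h9 ⊢
      exact h9
    have heq : (1 / 2 : ℂ) * ((1 / (q k : ℂ)) *
        (2 * ∑ a ∈ half (q k), χ k (a : ZMod (q k)) ^ 2 * (P (1 - s / H k) (q k) a : ℂ))) -
        ((H k : ℝ) / q k : ℂ) * ∑ a ∈ half (q k), χ k (a : ZMod (q k)) ^ 2 *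
        ((2 * s / (s ^ 2 + (2 * Real.pi * (a * H k / q k)) ^ 2) : ℝ) : ℂ) =
        (1 / (q k : ℂ)) * ∑ a ∈ half (q k), χ k (a : ZMod (q k)) ^ 2 *
          ((P (1 - s / H k) (q k) a -
            2 * (s / H k) / ((s / H k) ^ 2 + (2 * Real.pi * a / q k) ^ 2) : ℝ) : ℂ) := by
      have e1 : ((H k : ℝ) / q k : ℂ) * ∑ a ∈ half (q k), χ k (a : ZMod (q k)) ^ 2 *
          ((2 * s / (s ^ 2 + (2 * Real.pi * (a * H k / q k)) ^ 2) : ℝ) : ℂ) =
          (1 / (q k : ℂ)) * ∑ a ∈ half (q k), χ k (a : ZMod (q k)) ^ 2 *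
          ((2 * (s / H k) / ((s / H k) ^ 2 + (2 * Real.pi * a / q k) ^ 2) : ℝ) : ℂ) := by
        rw [Finset.mul_sum, Finset.mul_sum]
        refine Finset.sum_congr rfl fun a _ => ?_
        rw [mul_left_comm, hT a, mul_left_comm]
      rw [e1]
      have e2 : ∀ a : ℕ, χ k (a : ZMod (q k)) ^ 2 *
          ((P (1 - s / H k) (q k) a -
            2 * (s / H k) / ((s / H k) ^ 2 + (2 * Real.pi * a / q k) ^ 2) : ℝ) : ℂ) =
          χ k (a : ZMod (q k)) ^ 2 * (P (1 - s / H k) (q k) a : ℂ) -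
          χ k (a : ZMod (q k)) ^ 2 *
            ((2 * (s / H k) / ((s / H k) ^ 2 + (2 * Real.pi * a / q k) ^ 2) : ℝ) : ℂ) := by
        intro a
        rw [Complex.ofReal_sub, mul_sub]
      simp only [e2]
      rw [Finset.sum_sub_distrib]
      ring
    rw [heq, norm_mul, norm_div, norm_one, Complex.norm_natCast]
    have hb := hcmp (q k) (s / H k) (hq k).one_le hη hη1
    have hb2 : (1 / (q k : ℝ)) * ‖∑ a ∈ half (q k), χ k (a : ZMod (q k)) ^ 2 *
          ((P (1 - s / H k) (q k) a -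
            2 * (s / H k) / ((s / H k) ^ 2 + (2 * Real.pi * a / q k) ^ 2) : ℝ) : ℂ)‖ ≤
        (1 / (q k : ℝ)) * ∑ a ∈ half (q k), |P (1 - s / H k) (q k) a -
          2 * (s / H k) / ((s / H k) ^ 2 + (2 * Real.pi * a / q k) ^ 2)| := by
      refine mul_le_mul_of_nonneg_left ?_ (by positivity)
      refine (norm_sum_le _ _).trans (Finset.sum_le_sum fun a _ => ?_)
      rw [norm_mul, norm_pow, Complex.norm_real, Real.norm_eq_abs]
      have hx : ‖χ k (a : ZMod (q k))‖ ≤ 1 := DirichletCharacter.norm_le_one _ _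
      exact mul_le_of_le_one_left (abs_nonneg _) (pow_le_one₀ (norm_nonneg _) hx)
    refine (hb2.trans hb).trans ?_
    refine mul_le_mul_of_nonneg_left ?_ hC.le
    have h10 : 1 / (q k : ℝ) ≤ ((H k : ℝ))⁻¹ := by
      rw [one_div]
      exact inv_anti₀ hH0 hHq
    have h11 : s / H k = s * ((H k : ℝ))⁻¹ := div_eq_mul_inv _ _
    rw [h11]
    linarith
  have := hp.sub hdiff
  simpa using this

end CharCLT
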