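import Pool.Agent.Lib.MP_f2256b_ntT14.Base

/-! # Leaf: uniformity in the length -/

set_option autoImplicit false

open ProbabilityTheory MeasureTheory Filter Topology Finset

namespace CharCLT

/-- Choose for every `k` a bad `h` if there is one and `h = H k` otherwise (`δ ≤ 1`); apply `clt_mean`
and `clt_small` (file Main) to this sequence. -/
theorem unif {q : ℕ → ℕ} {χ : (k : ℕ) → DirichletCharacter ℂ (q k)} {H : ℕ → ℕ}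
    (hq : ∀ k, (q k).Prime) (hχ : ∀ k, χ k ^ 2 ≠ 1) (hH : ∀ k, 1 ≤ H k ∧ H k ≤ q k)
    (hall : AllCLT q χ H) {δ ε : ℝ} (hδ : 0 < δ) (hδ1 : δ ≤ 1) (hε : 0 < ε) :
    ∀ᶠ k in atTop, ∀ h : ℕ, 1 ≤ h → h ≤ q k → δ * H k ≤ h → δ * h ≤ H k →
      ‖M (χ k) h‖ ≤ ε := by
  classical
  have key : ∀ k, ∃ h : ℕ, (1 ≤ h ∧ h ≤ q k) ∧ (δ * H k ≤ h ∧ δ * h ≤ H k) ∧
      ((∃ h' : ℕ, 1 ≤ h' ∧ h' ≤ q k ∧ δ * H k ≤ h' ∧ δ * h' ≤ H k ∧ ε < ‖M (χ k) h'‖) →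
        ε < ‖M (χ k) h‖) := by
    intro k
    by_cases hb : ∃ h' : ℕ, 1 ≤ h' ∧ h' ≤ q k ∧ δ * H k ≤ h' ∧ δ * h' ≤ H k ∧ ε < ‖M (χ k) h'‖
    · obtain ⟨h', h1, h2, h3, h4, h5⟩ := hb
      exact ⟨h', ⟨h1, h2⟩, ⟨h3, h4⟩, fun _ => h5⟩
    · have h1 : δ * (H k : ℝ) ≤ H k := by
        have h2 : (0 : ℝ) ≤ H k := Nat.cast_nonneg _
        nlinarith
      exact ⟨H k, hH k, ⟨h1, h1⟩, fun h2 => absurd h2 hb⟩
  choose h hr hcmp hbad using key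
  have hc : CLT q χ h := hall h hr ⟨δ, hδ, hcmp⟩
  have h1 := (tendsto_zero_iff_norm_tendsto_zero.1
    (clt_mean hq hχ hr (clt_small hq hχ hr hc) hc)).eventually (gt_mem_nhds hε)
  filter_upwards [h1] with k hk h' h2 h3 h4 h5
  by_contra hcon
  have h6 := hbad k ⟨h', h2, h3, h4, h5, not_le.1 hcon⟩
  exact absurd (h6.trans hk) (lt_irrefl _)

end CharCLT
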